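import Pool.Agent.H43.TP.Defs

/-!
# Two primes with error terms `(log X)^(-B)` (H43/TQ): definitions and plan

The theorem of `H43/TP` with an exceptional set of size `X (log X)^(-B)` and relative error `(log X)^(-B)`.
`l = log X`, `P = ⌊l^A⌋`, `P2 = ⌊l^(2A)⌋`, `ue` = number of the `p ∈ (P,P2]` with `n/p` prime, `lam` = its expected value.

* `Lam`: the function `lam`; `Pie`: narrow pieces of `(P,P2]`; `Thu`: windows of `ue`; `Bl2`, `Fa2`.
* `Or2`: orthogonality; `Ran`: Rankin's trick for the singular series; `Low`: lower bound of `S`; `Mt2`: main term.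
* `Ms2`: mean square; `Fin2`: the theorem.
-/

namespace Pool.Agent.H43.TQ

open Finset

/-- number of primes `p` of `(D,D']` with `p ∣ n`, `n/p` prime -/
noncomputable def ue (D D' n : ℕ) : ℝ :=
  (((Ioc D D').filter (fun p => p.Prime ∧ p ∣ n ∧ (n / p).Prime)).card : ℝ)

/-- the expected value of `ue` near `n`: the sum of `1/(p log (n/p))` -/
noncomputable def lam (D D' n : ℕ) : ℝ :=
  ∑ p ∈ (Ioc D D').filter Nat.Prime, 1 / ((p : ℝ) * Real.log ((n : ℝ) / p))

/-- `ue - lam lq` on `(Z, 2X]` -/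
noncomputable def aw (P P2 Q X Z : ℕ) (n : ℕ) : ℂ :=
  if Z < n ∧ n ≤ 2 * X then ((ue P P2 n - lam P P2 n * TP.lq Q n : ℝ) : ℂ) else 0

end Pool.Agent.H43.TQ
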