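import Pool.Agent.H43.TP.Mt
import Pool.Agent.H43.TQ.Defs

/-!
# [H43 TQ MT2] The main term with a decreasing weight

PROOF. Abel summation: with `a_m = lq Q (m^3+k) - Σ_{r<=Q} ar r k` all partial sums `Σ_{m<=M'} a_m` are at most `2Q^2` in absolute value
(`TP.mt`), and `w` is decreasing and `>= 0`, so `|Σ_m w_m a_m| <= 2Q^2 w_1` (e.g. `H43.LF.cls_abel` or directly).
-/

namespace Pool.Agent.H43.TQ

open Finset

private theorem mt2_abel (a w : ℕ → ℝ) (M : ℕ) :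
    ∑ m ∈ Icc 1 M, w m * a m = w (M + 1) * (∑ j ∈ Icc 1 M, a j) +
      ∑ m ∈ Icc 1 M, (w m - w (m + 1)) * ∑ j ∈ Icc 1 m, a j := by
  induction M with
  | zero => simp
  | succ M ih =>
    rw [Finset.sum_Icc_succ_top (by omega), ih, Finset.sum_Icc_succ_top (by omega) a,
      Finset.sum_Icc_succ_top (by omega) (fun m => (w m - w (m + 1)) * ∑ j ∈ Icc 1 m, a j),
      Finset.sum_Icc_succ_top (by omega) a]
    ring

private theorem mt2_tel (w : ℕ → ℝ) (M : ℕ) :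
    ∑ m ∈ Icc 1 M, (w m - w (m + 1)) = w 1 - w (M + 1) := by
  induction M with
  | zero => simp
  | succ M ih =>
    rw [Finset.sum_Icc_succ_top (by omega), ih]
    ring

theorem mt2 (Q M k : ℕ) (w : ℕ → ℝ) (hw : ∀ m, 1 ≤ m → w (m + 1) ≤ w m) (hw0 : ∀ m, 1 ≤ m → 0 ≤ w m) :
    |∑ m ∈ Icc 1 M, w m * TP.lq Q (m ^ 3 + k) -
      (∑ m ∈ Icc 1 M, w m) * ∑ r ∈ Icc 1 Q, TP.ar r k| ≤ 2 * (Q : ℝ) ^ 2 * w 1 := by
  obtain ⟨S, hS⟩ : ∃ S, S = ∑ r ∈ Icc 1 Q, TP.ar r k := ⟨_, rfl⟩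
  obtain ⟨a, ha⟩ : ∃ a : ℕ → ℝ, a = fun m => TP.lq Q (m ^ 3 + k) - S := ⟨_, rfl⟩
  have h1 : ∑ m ∈ Icc 1 M, w m * TP.lq Q (m ^ 3 + k) -
      (∑ m ∈ Icc 1 M, w m) * ∑ r ∈ Icc 1 Q, TP.ar r k = ∑ m ∈ Icc 1 M, w m * a m := by
    rw [← hS, Finset.sum_mul, ← Finset.sum_sub_distrib, ha]
    refine Finset.sum_congr rfl fun m _ => ?_
    ring
  have hA : ∀ m, |∑ j ∈ Icc 1 m, a j| ≤ 2 * (Q : ℝ) ^ 2 := by
    intro m
    have h2 := TP.mt Q m k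
    have h3 : ∑ j ∈ Icc 1 m, a j = ∑ m ∈ Icc 1 m, TP.lq Q (m ^ 3 + k) - m * ∑ r ∈ Icc 1 Q, TP.ar r k := by
      rw [ha, ← hS, Finset.sum_sub_distrib, Finset.sum_const, Nat.card_Icc, nsmul_eq_mul, Nat.add_sub_cancel]
    rw [h3]
    exact h2
  rw [h1, mt2_abel]
  refine (abs_add_le _ _).trans ?_
  have h4 : |w (M + 1) * ∑ j ∈ Icc 1 M, a j| ≤ w (M + 1) * (2 * (Q : ℝ) ^ 2) := by
    rw [abs_mul, abs_of_nonneg (hw0 _ (by omega))]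
    exact mul_le_mul_of_nonneg_left (hA M) (hw0 _ (by omega))
  have h5 : |∑ m ∈ Icc 1 M, (w m - w (m + 1)) * ∑ j ∈ Icc 1 m, a j| ≤
      (w 1 - w (M + 1)) * (2 * (Q : ℝ) ^ 2) := by
    rw [← mt2_tel w M, Finset.sum_mul]
    refine (Finset.abs_sum_le_sum_abs _ _).trans (Finset.sum_le_sum fun m hm => ?_)
    have hm1 := (Finset.mem_Icc.1 hm).1
    have h6 : 0 ≤ w m - w (m + 1) := sub_nonneg.2 (hw m hm1)
    rw [abs_mul, abs_of_nonneg h6]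
    exact mul_le_mul_of_nonneg_left (hA m) h6
  refine (add_le_add h4 h5).trans (le_of_eq ?_)
  ring

end Pool.Agent.H43.TQ
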