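import Pool.Agent.H43.TQ.Defs

/-!
# [H43 TQ LAM] The function `lam`

PROOF. For `p <= D'` and `3 D' <= n`: `log(n/p) >= log 3 >= 1`. `lam_low`: `log(n/p) <= log n`, every term is
`>= (1/p)(1/log n)`. `lam_le`: every term is `<= 1/p`. `lam_anti`: `log` is monotone. `lam_lip`: for `1 <= u <= v`
(`u = log(n/p)`, `v = log(n'/p)`) `1/u - 1/v = (v-u)/(uv) <= v - u = log(n'/n) <= (n'-n)/n`. `kap_le`: `Σ_{n<=D'} 1/n`
`<= 1 + log D'`. `ue_le`: if there is a term then `n = p p'` with primes `p, p'`, and the primes dividing `n` are `p, p'`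
(for `n = 0`: `0/p = 0` is not prime, so there is no term).
-/

namespace Pool.Agent.H43.TQ

open Finset

private theorem lam_aux {D D' n : ℕ} (hn : 3 * D' ≤ n) {p : ℕ}
    (hp : p ∈ (Ioc D D').filter Nat.Prime) :
    (0 : ℝ) < p ∧ (0 : ℝ) < n ∧ 1 ≤ Real.log ((n : ℝ) / p) ∧ Real.log ((n : ℝ) / p) ≤ Real.log n := by
  rw [mem_filter, mem_Ioc] at hp
  obtain ⟨⟨-, hpD⟩, hpp⟩ := hp
  have hp0 : (0 : ℝ) < p := by exact_mod_cast hpp.pos
  have hp1 : (1 : ℝ) ≤ p := by exact_mod_cast hpp.one_le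
  have h3 : (3 : ℝ) * p ≤ n := by
    have : 3 * p ≤ n := (Nat.mul_le_mul_left 3 hpD).trans hn
    exact_mod_cast this
  have hn0 : (0 : ℝ) < n := by linarith
  refine ⟨hp0, hn0, ?_, ?_⟩
  · rw [Real.le_log_iff_exp_le (by positivity)]
    have h4 : (3 : ℝ) ≤ (n : ℝ) / p := (le_div_iff₀ hp0).mpr h3
    linarith [Real.exp_one_lt_d9]
  · exact Real.log_le_log (by positivity) (div_le_self hn0.le hp1)

theorem lam_nonneg (D D' n : ℕ) (hn : 3 * D' ≤ n) : 0 ≤ lam D D' n := by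
  refine Finset.sum_nonneg (fun p hp => ?_)
  obtain ⟨h1, -, h3, -⟩ := lam_aux hn hp
  have : 0 ≤ Real.log ((n : ℝ) / p) := by linarith
  positivity

theorem lam_low (D D' n : ℕ) (hn : 3 * D' ≤ n) : TP.kap D D' / Real.log n ≤ lam D D' n := by
  unfold TP.kap lam
  rw [Finset.sum_div]
  refine Finset.sum_le_sum (fun p hp => ?_)
  obtain ⟨h1, -, h3, h4⟩ := lam_aux hn hp
  rw [div_div]
  exact one_div_le_one_div_of_le (mul_pos h1 (by linarith)) (mul_le_mul_of_nonneg_left h4 h1.le)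

theorem lam_le (D D' n : ℕ) (hn : 3 * D' ≤ n) : lam D D' n ≤ TP.kap D D' := by
  unfold TP.kap lam
  refine Finset.sum_le_sum (fun p hp => ?_)
  obtain ⟨h1, -, h3, -⟩ := lam_aux hn hp
  refine one_div_le_one_div_of_le h1 ?_
  nlinarith

theorem lam_anti (D D' n n' : ℕ) (hn : 3 * D' ≤ n) (h : n ≤ n') : lam D D' n' ≤ lam D D' n := by
  unfold lam
  refine Finset.sum_le_sum (fun p hp => ?_)
  obtain ⟨h1, h2, h3, -⟩ := lam_aux hn hp
  refine one_div_le_one_div_of_le (mul_pos h1 (by linarith))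
    (mul_le_mul_of_nonneg_left (Real.log_le_log (by positivity) ?_) h1.le)
  have : (n : ℝ) ≤ n' := by exact_mod_cast h
  exact div_le_div_of_nonneg_right this h1.le

theorem lam_lip (D D' n n' : ℕ) (hn : 3 * D' ≤ n) (h : n ≤ n') :
    lam D D' n - lam D D' n' ≤ TP.kap D D' * (((n' : ℝ) - n) / n) := by
  unfold TP.kap lam
  rw [← Finset.sum_sub_distrib, Finset.sum_mul]
  refine Finset.sum_le_sum (fun p hp => ?_)
  obtain ⟨h1, h2, h3, -⟩ := lam_aux hn hp
  have hnn : (n : ℝ) ≤ n' := by exact_mod_cast h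
  have hn' : (0 : ℝ) < n' := by linarith
  have huv : Real.log ((n : ℝ) / p) ≤ Real.log ((n' : ℝ) / p) :=
    Real.log_le_log (by positivity) (div_le_div_of_nonneg_right hnn h1.le)
  have hdiff : Real.log ((n' : ℝ) / p) - Real.log ((n : ℝ) / p) ≤ ((n' : ℝ) - n) / n := by
    rw [Real.log_div hn'.ne' h1.ne', Real.log_div h2.ne' h1.ne']
    have h4 : Real.log n' - Real.log n = Real.log ((n' : ℝ) / n) := (Real.log_div hn'.ne' h2.ne').symm
    have h5 := Real.log_le_sub_one_of_pos (show (0 : ℝ) < (n' : ℝ) / n by positivity)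
    have h6 : ((n' : ℝ) - n) / n = (n' : ℝ) / n - 1 := by field_simp
    rw [h6]
    linarith
  set u := Real.log ((n : ℝ) / p) with hu
  set v := Real.log ((n' : ℝ) / p) with hv
  have hu0 : 0 < u := by linarith
  have hv0 : 0 < v := by linarith
  have h7 : 1 / ((p : ℝ) * u) - 1 / ((p : ℝ) * v) = 1 / p * ((v - u) / (u * v)) := by
    field_simp
  rw [h7]
  refine mul_le_mul_of_nonneg_left (le_trans ?_ hdiff) (by positivity)
  rw [div_le_iff₀ (by positivity)]
  have h8 : 1 ≤ u * v := by nlinarith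
  nlinarith

theorem kap_le (D D' : ℕ) : TP.kap D D' ≤ 1 + Real.log D' := by
  have h1 : TP.kap D D' ≤ ∑ n ∈ Icc 1 D', ((n : ℝ))⁻¹ := by
    unfold TP.kap
    have h2 : ∑ p ∈ (Ioc D D').filter Nat.Prime, 1 / (p : ℝ) =
        ∑ p ∈ (Ioc D D').filter Nat.Prime, ((p : ℝ))⁻¹ :=
      Finset.sum_congr rfl (fun p _ => one_div _)
    rw [h2]
    refine Finset.sum_le_sum_of_subset_of_nonneg ?_ (fun p _ _ => by positivity)
    intro p hp
    rw [mem_filter, mem_Ioc] at hp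
    rw [mem_Icc]
    exact ⟨hp.2.one_le, hp.1.2⟩
  have h3 := harmonic_le_one_add_log D'
  rw [harmonic_eq_sum_Icc] at h3
  push_cast at h3
  exact h1.trans h3

theorem ue_le (D D' n : ℕ) : ue D D' n ≤ 2 := by
  unfold ue
  rcases ((Ioc D D').filter (fun p => p.Prime ∧ p ∣ n ∧ (n / p).Prime)).eq_empty_or_nonempty with
    h0 | ⟨p0, hp0⟩
  · rw [h0]
    simp
  · rw [mem_filter] at hp0
    obtain ⟨-, hp0, hd0, hq0⟩ := hp0
    have h1 : (Ioc D D').filter (fun p => p.Prime ∧ p ∣ n ∧ (n / p).Prime) ⊆ {p0, n / p0} := by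
      intro p hp
      rw [mem_filter] at hp
      obtain ⟨-, hpp, hpd, -⟩ := hp
      have h2 : n = p0 * (n / p0) := (Nat.mul_div_cancel' hd0).symm
      rw [h2, hpp.dvd_mul, Nat.prime_dvd_prime_iff_eq hpp hp0,
        Nat.prime_dvd_prime_iff_eq hpp hq0] at hpd
      rw [mem_insert, mem_singleton]
      exact hpd
    have h2 := (card_le_card h1).trans (card_le_two)
    exact_mod_cast h2

end Pool.Agent.H43.TQ
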