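import Pool.Agent.H43.TP.Sing
import Pool.Agent.H43.HL.Low
import Pool.Agent.H43.TQ.Defs

/-!
# [H43 TQ RAN] Rankin's trick for the singular series

PROOF. `TP.sing`: `S y k = Σ_{r ∣ Wy y} ar r k`. With `ε = 1/log y`: `|Σ_{r ∣ Wy y, r > R} ar r k| <= R^(-ε) Σ_{r ∣ Wy y} r^ε |ar r k|`
`= R^(-ε) ∏_{p<=y} (1 + p^ε |ar p k|)` (the function `r ↦ r^ε |ar r k|` is multiplicative on the divisors of the squarefree `Wy y`; same
induction as in `TP.sing`). `p^ε <= e`, `|ar p k| = |1-ν|/(p-1) <= 2/(p-1) <= 4/p` (`TP.ar_prime`, `HL.nu_le_three`), so the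
product is `<= exp(4e Σ_{p<=y} 1/p) <= exp(11 (1 + log y)) <= e^11 y^11 <= e^11 (log X)^(11C)` (crude: sum over all integers). And
`R^(-ε) = exp(-log R/log y) <= exp(-(log X)/(10 C log log X))`, which is `<= e^(-11) (log X)^(-11C-A)` for `X` large.
-/

namespace Pool.Agent.H43.TQ

open Finset

/-- the function `r ↦ r^e |ar r k|` as an arithmetic function -/
private noncomputable def rF (e : ℝ) (k : ℕ) : ArithmeticFunction ℝ :=
  ⟨fun r => (r : ℝ) ^ e * |TP.ar r k|, by unfold TP.ar; simp⟩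

private theorem rF_mult (e : ℝ) (k : ℕ) : (rF e k).IsMultiplicative := by
  refine ⟨?_, fun {m n} h => ?_⟩
  · change ((1 : ℕ) : ℝ) ^ e * |TP.ar 1 k| = 1
    rw [TP.ar_one]
    simp
  · change ((m * n : ℕ) : ℝ) ^ e * |TP.ar (m * n) k| =
      ((m : ℝ) ^ e * |TP.ar m k|) * ((n : ℝ) ^ e * |TP.ar n k|)
    rw [TP.ar_mul _ _ k h, Nat.cast_mul, Real.mul_rpow (Nat.cast_nonneg _) (Nat.cast_nonneg _),
      abs_mul]
    ring

private theorem sum_eq_prod (e : ℝ) (y k : ℕ) :
    ∑ r ∈ (TP.Wy y).divisors, (r : ℝ) ^ e * |TP.ar r k| =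
      ∏ p ∈ (Icc 1 y).filter Nat.Prime, (1 + (p : ℝ) ^ e * |TP.ar p k|) := by
  have hsq : Squarefree (TP.Wy y) := by
    rw [TP.Wy_eq]
    exact squarefree_primorial y
  have h := (rF_mult e k).prodPrimeFactors_one_add_of_squarefree hsq
  have hpf : (TP.Wy y).primeFactors = (Icc 1 y).filter Nat.Prime := by
    unfold TP.Wy
    exact Nat.primeFactors_prod fun p hp => (mem_filter.1 hp).2
  rw [hpf] at h
  exact h.symm

private theorem ar_prime_le (p k : ℕ) (hp : p.Prime) : |TP.ar p k| ≤ 4 / p := by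
  have hp2 : (2 : ℝ) ≤ p := by exact_mod_cast hp.two_le
  have h3 : (HL.nu p k : ℝ) ≤ 3 := by exact_mod_cast HL.nu_le_three p k hp
  have h0 : (0 : ℝ) ≤ HL.nu p k := Nat.cast_nonneg _
  rw [TP.ar_prime p k hp, abs_div, abs_of_pos (by linarith : (0 : ℝ) < (p : ℝ) - 1),
    div_le_div_iff₀ (by linarith) (by linarith)]
  have h4 : |1 - (HL.nu p k : ℝ)| ≤ 2 := by
    rw [abs_le]
    constructor <;> linarith
  nlinarith

private theorem prod_le (y k : ℕ) (hy : 2 ≤ y) :
    ∏ p ∈ (Icc 1 y).filter Nat.Prime, (1 + (p : ℝ) ^ (1 / Real.log y) * |TP.ar p k|) ≤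
      Real.exp (11 * (1 + Real.log y)) := by
  have hy1 : (1 : ℝ) < y := by exact_mod_cast (by omega : 1 < y)
  have hly : 0 < Real.log y := Real.log_pos hy1
  have h1 : ∀ p ∈ (Icc 1 y).filter Nat.Prime,
      1 + (p : ℝ) ^ (1 / Real.log y) * |TP.ar p k| ≤ Real.exp (11 * (p : ℝ)⁻¹) := by
    intro p hp
    obtain ⟨hp1, hp2⟩ := mem_filter.1 hp
    obtain ⟨hp3, hp4⟩ := mem_Icc.1 hp1
    have hp0 : (0 : ℝ) < p := by exact_mod_cast hp2.pos
    have h2 : (p : ℝ) ^ (1 / Real.log y) ≤ Real.exp 1 := by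
      refine (Real.rpow_le_rpow hp0.le (by exact_mod_cast hp4 : (p : ℝ) ≤ y)
        (by positivity)).trans ?_
      rw [Real.rpow_def_of_pos (by linarith), mul_one_div_cancel hly.ne']
    have h3 := ar_prime_le p k hp2
    have h4 : Real.exp 1 ≤ 11 / 4 := by
      have := Real.exp_one_lt_d9
      linarith
    have h5 : (p : ℝ) ^ (1 / Real.log y) * |TP.ar p k| ≤ 11 / 4 * (4 / p) :=
      mul_le_mul (h2.trans h4) h3 (abs_nonneg _) (by norm_num)
    have h6 : (11 : ℝ) / 4 * (4 / p) = 11 * (p : ℝ)⁻¹ := by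
      field_simp
    have h7 := Real.add_one_le_exp (11 * (p : ℝ)⁻¹)
    linarith
  have h2 : ∏ p ∈ (Icc 1 y).filter Nat.Prime, (1 + (p : ℝ) ^ (1 / Real.log y) * |TP.ar p k|) ≤
      ∏ p ∈ (Icc 1 y).filter Nat.Prime, Real.exp (11 * (p : ℝ)⁻¹) :=
    prod_le_prod (fun p _ => by positivity) h1
  rw [← Real.exp_sum, ← mul_sum] at h2
  refine h2.trans (Real.exp_le_exp.2 ?_)
  refine mul_le_mul_of_nonneg_left ?_ (by norm_num)
  have h3 : ∑ p ∈ (Icc 1 y).filter Nat.Prime, (p : ℝ)⁻¹ ≤ ∑ n ∈ Icc 1 y, (n : ℝ)⁻¹ :=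
    sum_le_sum_of_subset_of_nonneg (filter_subset _ _) fun _ _ _ => by positivity
  refine h3.trans ?_
  have h4 := harmonic_le_one_add_log y
  rw [harmonic_eq_sum_Icc] at h4
  push_cast at h4
  exact h4

/-- `10 C log t (11 + (11 C + A) log t) <= t` for large `t` -/
private theorem ev (C A : ℝ) (hC : 0 < C) (hA : 0 < A) : ∀ᶠ t : ℝ in Filter.atTop,
    10 * C * Real.log t * (11 + (11 * C + A) * Real.log t) ≤ t := by
  have hK : 0 < 10 * C * (11 + (11 * C + A)) := by positivity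
  have h1 := (Real.isLittleO_pow_log_id_atTop (n := 2)).bound
    (c := (10 * C * (11 + (11 * C + A)))⁻¹) (by positivity)
  filter_upwards [h1, Filter.eventually_ge_atTop (Real.exp 1)] with t ht ht1
  have hl : 1 ≤ Real.log t := by
    rw [Real.le_log_iff_exp_le (lt_of_lt_of_le (Real.exp_pos _) ht1)]
    exact ht1
  have ht0 : 0 < t := lt_of_lt_of_le (Real.exp_pos _) ht1
  simp only [id, Real.norm_eq_abs] at ht
  rw [abs_of_nonneg (by positivity), abs_of_pos ht0] at ht
  have h2 : 10 * C * (11 + (11 * C + A)) * Real.log t ^ 2 ≤ t := by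
    have := mul_le_mul_of_nonneg_left ht hK.le
    rwa [← mul_assoc, mul_inv_cancel₀ hK.ne', one_mul] at this
  refine le_trans ?_ h2
  have h3 : 11 + (11 * C + A) * Real.log t ≤ (11 + (11 * C + A)) * Real.log t := by nlinarith
  calc 10 * C * Real.log t * (11 + (11 * C + A) * Real.log t)
      ≤ 10 * C * Real.log t * ((11 + (11 * C + A)) * Real.log t) :=
        mul_le_mul_of_nonneg_left h3 (by positivity)
    _ = _ := by ring

theorem ran (C A : ℝ) (hC : 0 < C) (hA : 0 < A) : ∃ X0 : ℕ, ∀ X : ℕ, X0 ≤ X →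
    ∀ y k R : ℕ, 2 ≤ y → (y : ℝ) ≤ (Real.log X) ^ C → (X : ℝ) ^ ((1 : ℝ) / 10) ≤ R →
    |HL.S y k - ∑ r ∈ (TP.Wy y).divisors.filter (fun r => r ≤ R), TP.ar r k| ≤
      (Real.log X) ^ (-A) := by
  have hev : ∀ᶠ X : ℕ in Filter.atTop,
      10 * C * Real.log (Real.log X) * (11 + (11 * C + A) * Real.log (Real.log X)) ≤
        Real.log X ∧ Real.exp 1 ≤ Real.log X := by
    have ht : Filter.Tendsto (fun X : ℕ => Real.log (X : ℝ)) Filter.atTop Filter.atTop :=
      Real.tendsto_log_atTop.comp tendsto_natCast_atTop_atTop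
    exact (ht.eventually (ev C A hC hA)).and
      (ht.eventually (Filter.eventually_ge_atTop (Real.exp 1)))
  obtain ⟨X0, hX0⟩ := Filter.eventually_atTop.1 hev
  refine ⟨X0, fun X hX y k R hy hyX hR => ?_⟩
  obtain ⟨h1, h2⟩ := hX0 X hX
  have ht0 : 0 < Real.log (X : ℝ) := lt_of_lt_of_le (Real.exp_pos _) h2
  have hX1 : (1 : ℝ) < X := by
    by_contra hne
    push Not at hne
    have := Real.log_nonpos (Nat.cast_nonneg X) hne
    linarith
  have hl1 : 1 ≤ Real.log (Real.log X) := by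
    rw [Real.le_log_iff_exp_le ht0]
    exact h2
  have hy1 : (1 : ℝ) < y := by exact_mod_cast (by omega : 1 < y)
  have hly : 0 < Real.log y := Real.log_pos hy1
  have hlyle : Real.log y ≤ C * Real.log (Real.log X) := by
    rw [← Real.log_rpow ht0]
    exact Real.log_le_log (by linarith) hyX
  have hRpos : (0 : ℝ) < R := lt_of_lt_of_le (by positivity) hR
  set e : ℝ := 1 / Real.log y with he
  have he0 : 0 < e := by positivity
  -- the difference
  have h3 : HL.S y k - ∑ r ∈ (TP.Wy y).divisors.filter (fun r => r ≤ R), TP.ar r k =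
      ∑ r ∈ (TP.Wy y).divisors.filter (fun r => ¬ r ≤ R), TP.ar r k := by
    rw [TP.sing, ← sum_filter_add_sum_filter_not (TP.Wy y).divisors (fun r => r ≤ R)]
    ring
  rw [h3]
  have h4 : |∑ r ∈ (TP.Wy y).divisors.filter (fun r => ¬ r ≤ R), TP.ar r k| ≤
      (R : ℝ) ^ (-e) * ∑ r ∈ (TP.Wy y).divisors, (r : ℝ) ^ e * |TP.ar r k| := by
    refine (abs_sum_le_sum_abs _ _).trans ?_
    rw [mul_sum]
    have h5 : ∑ r ∈ (TP.Wy y).divisors.filter (fun r => ¬ r ≤ R), |TP.ar r k| ≤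
        ∑ r ∈ (TP.Wy y).divisors.filter (fun r => ¬ r ≤ R),
          (R : ℝ) ^ (-e) * ((r : ℝ) ^ e * |TP.ar r k|) := by
      refine sum_le_sum fun r hr => ?_
      have hr1 := (mem_filter.1 hr).2
      push Not at hr1
      have hr2 : (R : ℝ) ≤ r := by exact_mod_cast hr1.le
      have h6 : 1 ≤ (R : ℝ) ^ (-e) * (r : ℝ) ^ e := by
        rw [Real.rpow_neg hRpos.le, ← div_eq_inv_mul, one_le_div (by positivity)]
        exact Real.rpow_le_rpow hRpos.le hr2 he0.le
      rw [← mul_assoc]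
      exact le_mul_of_one_le_left (abs_nonneg _) h6
    refine h5.trans ?_
    exact sum_le_sum_of_subset_of_nonneg (filter_subset _ _) fun _ _ _ => by positivity
  refine h4.trans ?_
  rw [sum_eq_prod]
  have h5 := prod_le y k hy
  rw [← he] at h5
  have h6 : (R : ℝ) ^ (-e) ≤
      Real.exp (-(Real.log X / (10 * C * Real.log (Real.log X)))) := by
    rw [Real.rpow_def_of_pos hRpos]
    refine Real.exp_le_exp.2 ?_
    rw [mul_neg]
    refine neg_le_neg ?_
    have h7 : Real.log X / 10 ≤ Real.log R := by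
      have := Real.log_le_log (by positivity) hR
      rw [Real.log_rpow (by linarith)] at this
      linarith
    rw [he, mul_one_div]
    calc Real.log X / (10 * C * Real.log (Real.log X))
        = (Real.log X / 10) / (C * Real.log (Real.log X)) := by
          rw [div_div, mul_assoc]
      _ ≤ (Real.log X / 10) / Real.log y :=
          div_le_div_of_nonneg_left (by positivity) hly hlyle
      _ ≤ Real.log R / Real.log y := by gcongr
  have h7 : (R : ℝ) ^ (-e) *
      ∏ p ∈ (Icc 1 y).filter Nat.Prime, (1 + (p : ℝ) ^ e * |TP.ar p k|) ≤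
      Real.exp (-(Real.log X / (10 * C * Real.log (Real.log X)))) *
        Real.exp (11 * (1 + Real.log y)) :=
    mul_le_mul h6 h5 (prod_nonneg fun p _ => by positivity) (Real.exp_pos _).le
  refine h7.trans ?_
  rw [← Real.exp_add, Real.rpow_def_of_pos ht0]
  refine Real.exp_le_exp.2 ?_
  have h8 : 11 + (11 * C + A) * Real.log (Real.log X) ≤
      Real.log X / (10 * C * Real.log (Real.log X)) := by
    rw [le_div_iff₀ (by positivity)]
    linarith
  nlinarith

end Pool.Agent.H43.TQ
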