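import Pool.Agent.H75.AP.MertensB
import Pool.Agent.H43.HL.Low
import Pool.Agent.H43.TQ.Defs

/-!
# [H43 TQ LOW] Lower bound of the singular series

PROOF. The factor of `p` is `(1 - ν/p)/(1 - 1/p)`. `p = 2, 3`: it is `1` (`ν = 1`).
`p >= 5`: `ν <= 3` (`HL.nu_le_three`), the factor is `>= (p-3)/(p-1) = 1 - 2/(p-1) >= exp(-4/(p-1))`
`>= exp(-5/p)` (`1 - x >= exp(-2x)` for `0 <= x <= 1/2`). So `S >= exp(-5 Σ_{p<=y} 1/p)` and by `H75.AP.mertens_upper`
`Σ_{p<=y} 1/p <= log log y + C` (`H75.AP.PI 0 v` is the set of the primes `<= v`): `S >= e^(-5C) (log y)^(-5)`.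
-/

namespace Pool.Agent.H43.TQ

open Finset

theorem low_fac (p k : ℕ) (hp : p.Prime) :
    Real.exp (-(5 / (p : ℝ))) ≤ (1 - (HL.nu p k : ℝ) / p) / (1 - 1 / (p : ℝ)) := by
  have hp0 : (0 : ℝ) < p := by exact_mod_cast hp.pos
  by_cases h : p < 5
  · have : p = 2 ∨ p = 3 := by
      have h2 := hp.two_le
      have : p ≠ 4 := by rintro rfl; norm_num at hp
      omega
    have h1 : HL.nu p k = 1 := by
      rcases this with rfl | rfl
      · exact HL.nu_two k
      · exact HL.nu_three k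
    have hne : (1 : ℝ) - 1 / (p : ℝ) ≠ 0 := by
      have hp1 : (1 : ℝ) < p := by exact_mod_cast hp.one_lt
      have : 1 / (p : ℝ) < 1 := by rwa [div_lt_one hp0]
      linarith
    rw [h1, Nat.cast_one, div_self hne]
    apply Real.exp_le_one_iff.2
    have : 0 ≤ 5 / (p : ℝ) := by positivity
    linarith
  · push Not at h
    have h5 : (5 : ℝ) ≤ p := by exact_mod_cast h
    have h3 : (HL.nu p k : ℝ) ≤ 3 := by exact_mod_cast HL.nu_le_three p k hp
    have hq : (0 : ℝ) < (p : ℝ) - 1 := by linarith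
    have hden : 0 < 1 - 1 / (p : ℝ) := by
      rw [sub_pos, div_lt_one hp0]
      linarith
    have hnu : (HL.nu p k : ℝ) / p ≤ 3 / p := div_le_div_of_nonneg_right h3 hp0.le
    have e1 : (1 - 3 / (p : ℝ)) / (1 - 1 / (p : ℝ)) = 1 - 2 / ((p : ℝ) - 1) := by
      have e2 : 1 - 3 / (p : ℝ) = (p - 3) / p := by field_simp
      have e3 : 1 - 1 / (p : ℝ) = (p - 1) / p := by field_simp
      rw [e2, e3, div_div_div_cancel_right₀ hp0.ne']
      rw [eq_sub_iff_add_eq, ← add_div, div_eq_one_iff_eq hq.ne']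
      ring
    have h6 : (1 - 3 / (p : ℝ)) / (1 - 1 / (p : ℝ)) ≤
        (1 - (HL.nu p k : ℝ) / p) / (1 - 1 / (p : ℝ)) :=
      div_le_div_of_nonneg_right (by linarith) hden.le
    refine le_trans ?_ h6
    rw [e1]
    set x := 2 / ((p : ℝ) - 1) with hx
    have hx0 : 0 ≤ x := by positivity
    have hx1 : x ≤ 1 / 2 := by
      rw [hx, div_le_div_iff₀ hq (by norm_num)]
      linarith
    have hx2 : 2 * x ≤ 5 / (p : ℝ) := by
      have : 2 * x = 4 / ((p : ℝ) - 1) := by rw [hx]; ring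
      rw [this, div_le_div_iff₀ hq hp0]
      linarith
    have h7 : Real.exp (-(5 / (p : ℝ))) ≤ Real.exp (-(2 * x)) := Real.exp_le_exp.2 (by linarith)
    refine h7.trans ?_
    rw [Real.exp_neg]
    have h8 : 2 * x + 1 ≤ Real.exp (2 * x) := Real.add_one_le_exp _
    have h9 : (Real.exp (2 * x))⁻¹ ≤ (2 * x + 1)⁻¹ := inv_anti₀ (by linarith) h8
    refine h9.trans ?_
    rw [inv_le_iff_one_le_mul₀ (by linarith)]
    nlinarith [mul_nonneg hx0 (show 0 ≤ 1 - 2 * x by linarith)]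

theorem low : ∃ c : ℝ, 0 < c ∧ ∀ y k : ℕ, 3 ≤ y → c * (Real.log y) ^ (-(5 : ℝ)) ≤ HL.S y k := by
  obtain ⟨C, -, hC⟩ := H75.AP.mertens_upper
  refine ⟨Real.exp (-(5 * C)), Real.exp_pos _, ?_⟩
  intro y k hy
  have hy3 : (3 : ℝ) ≤ y := by exact_mod_cast hy
  have hl : 0 < Real.log y := Real.log_pos (by linarith)
  have hset : H75.AP.PI 0 (y : ℝ) = (Icc 1 y).filter Nat.Prime := by
    ext p
    unfold H75.AP.PI
    rw [mem_filter, mem_filter, mem_range, mem_Icc, Nat.floor_natCast]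
    constructor
    · rintro ⟨h1, h2, -⟩
      exact ⟨⟨h2.one_lt.le, by omega⟩, h2⟩
    · rintro ⟨⟨h1, h2⟩, h3⟩
      exact ⟨by omega, h3, by exact_mod_cast h3.pos⟩
  have h1 := hC y hy3
  rw [hset] at h1
  have h2 : Real.exp (-(5 * C)) * (Real.log y) ^ (-(5 : ℝ)) =
      Real.exp (-(5 * (Real.log (Real.log y) + C))) := by
    rw [Real.rpow_def_of_pos hl, ← Real.exp_add]
    congr 1
    ring
  have h3 : Real.exp (-(5 * (Real.log (Real.log y) + C))) ≤
      Real.exp (∑ p ∈ (Icc 1 y).filter Nat.Prime, -(5 / (p : ℝ))) := by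
    apply Real.exp_le_exp.2
    have h4 : ∑ p ∈ (Icc 1 y).filter Nat.Prime, -(5 / (p : ℝ)) =
        -(5 * ∑ p ∈ (Icc 1 y).filter Nat.Prime, 1 / (p : ℝ)) := by
      rw [Finset.mul_sum, ← Finset.sum_neg_distrib]
      apply Finset.sum_congr rfl
      intro p _
      ring
    rw [h4]
    linarith
  rw [h2]
  refine h3.trans ?_
  rw [Real.exp_sum]
  unfold HL.S
  apply Finset.prod_le_prod
  · intro p _
    exact (Real.exp_pos _).le
  · intro p hp
    exact low_fac p k (mem_filter.1 hp).2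

end Pool.Agent.H43.TQ
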