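import Pool.Agent.H43.TQ.Ms2
import Pool.Agent.H43.TQ.Low

/-!
# [H43 TQ FIN2] The theorem

PROOF. `ℓ = log X`. `ms2` with `A' = 3B + 20`, `B' = B + 1`, `Z = ⌈X ℓ^(-B-1)⌉₊`. `P = ⌊ℓ^a⌋`, `P2 = ⌊ℓ^(2a)⌋`, `y = ⌊ℓ^C⌋`, `V(k) = Σ_m lam(m^3+k)`.
For `k ∈ (Z,X]`, `n = m^3+k > Z > P2^2`: `ue P P2 n ∈ {0,1}` and it is `1` iff `TP.E2 a X n` (for a natural number `p`: `P < p <= P2` iff
`ℓ^a < p <= ℓ^(2a)`; two different primes `p, p'` of `(P,P2]` with `n/p`, `n/p'` prime would give `n = p p' <= P2^2`), so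
`Σ_m ue(m^3+k) = cE a X M k`. `V(k) >= M kap/log(2X) >= M/(4ℓ)` (`lam_low`, `TP.mert`: `kap >= 1/2`). `S y k >= c (log y)^(-5) >= ℓ^(-1)` for
`X` large (`low`). If `k ∈ (Z,X]` and `ℓ^(-B) S V < |cE - S V|` then `(cE - S V)^2 > ℓ^(-2B) ℓ^(-2) M^2/(16 ℓ^2)`; by `ms2` the number of
these `k` is `<= X M^2 ℓ^(-3B-20) * 16 ℓ^(2B+4)/M^2 <= X ℓ^(-B-1)`. The `k <= Z`: at most `Z <= X ℓ^(-B-1) + 1`. Total
`<= 3 X ℓ^(-B-1) <= X ℓ^(-B)` for `X` large. (For `B <= 0` replace `B` by `max B 1`; the statement is for `B > 0`.)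
-/

set_option autoImplicit false

namespace Pool.Agent.H43.TQ

open Finset

theorem f2_ue (a X n : ℕ) (hX : 0 ≤ Real.log X)
    (hn : ⌊(Real.log X) ^ (2 * a)⌋₊ * ⌊(Real.log X) ^ (2 * a)⌋₊ < n) :
    (open Classical in ue ⌊(Real.log X) ^ a⌋₊ ⌊(Real.log X) ^ (2 * a)⌋₊ n =
      if TP.E2 a X n then 1 else 0) := by
  classical
  unfold ue
  set P := ⌊(Real.log X) ^ a⌋₊ with hP
  set P2 := ⌊(Real.log X) ^ (2 * a)⌋₊ with hP2
  have h1 : ∀ p : ℕ, P < p ↔ (Real.log X) ^ a < p := fun p => Nat.floor_lt (pow_nonneg hX a)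
  have h2 : ∀ p : ℕ, p ≤ P2 ↔ (p : ℝ) ≤ (Real.log X) ^ (2 * a) := fun p =>
    Nat.le_floor_iff (pow_nonneg hX (2 * a))
  split_ifs with hE
  · obtain ⟨p1, p2, hp1, hp2, e1, e2, rfl⟩ := hE
    have hmem : p1 ∈ (Ioc P P2).filter (fun p => p.Prime ∧ p ∣ p1 * p2 ∧ (p1 * p2 / p).Prime) := by
      rw [mem_filter, mem_Ioc]
      refine ⟨⟨(h1 p1).2 e1, (h2 p1).2 e2⟩, hp1, dvd_mul_right _ _, ?_⟩
      rw [Nat.mul_div_cancel_left _ hp1.pos]
      exact hp2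
    have hcard : ((Ioc P P2).filter (fun p => p.Prime ∧ p ∣ p1 * p2 ∧
        (p1 * p2 / p).Prime)).card = 1 := by
      rw [card_eq_one]
      refine ⟨p1, ?_⟩
      ext q
      rw [mem_singleton]
      constructor
      · intro hq
        rw [mem_filter, mem_Ioc] at hq
        obtain ⟨⟨hq1, hq2⟩, hqp, hqd, -⟩ := hq
        rw [mem_filter, mem_Ioc] at hmem
        by_contra hne
        rcases (hqp.dvd_mul).1 hqd with h | h
        · exact hne ((Nat.prime_dvd_prime_iff_eq hqp hp1).1 h)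
        · have h3 := (Nat.prime_dvd_prime_iff_eq hqp hp2).1 h
          have h4 : p1 * p2 ≤ P2 * P2 := by
            rw [← h3]
            exact Nat.mul_le_mul hmem.1.2 hq2
          omega
      · rintro rfl
        exact hmem
    rw [hcard]
    norm_num
  · have hcard : ((Ioc P P2).filter (fun p => p.Prime ∧ p ∣ n ∧ (n / p).Prime)).card = 0 := by
      rw [card_eq_zero, filter_eq_empty_iff]
      rintro p hp ⟨hp1, hp2, hp3⟩
      rw [mem_Ioc] at hp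
      exact hE ⟨p, n / p, hp1, hp3, (h1 p).1 hp.1, (h2 p).1 hp.2, (Nat.mul_div_cancel' hp2).symm⟩
    rw [hcard]
    norm_num

theorem f2_sum (a X M k : ℕ) (hX : 0 ≤ Real.log X)
    (hk : ⌊(Real.log X) ^ (2 * a)⌋₊ * ⌊(Real.log X) ^ (2 * a)⌋₊ < k) :
    ∑ m ∈ Icc 1 M, ue ⌊(Real.log X) ^ a⌋₊ ⌊(Real.log X) ^ (2 * a)⌋₊ (m ^ 3 + k) =
      (TP.cE a X M k : ℝ) := by
  classical
  unfold TP.cE
  rw [card_filter]
  push_cast
  refine sum_congr rfl fun m _ => ?_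
  rw [f2_ue a X (m ^ 3 + k) hX (by omega)]

/-- the conditions which hold for large `X` -/
theorem f2_large (B C c : ℝ) (a : ℕ) (hc : 0 < c) :
    ∃ X0 : ℕ, ∀ X : ℕ, X0 ≤ X → 18 ≤ Real.log X ∧
      3 * (Real.log X) ^ ((4 * a : ℕ) + B + 1) ≤ X ∧
      (C * Real.log (Real.log X)) ^ 5 ≤ c * Real.log X := by
  have h1 : ∀ᶠ x : ℝ in Filter.atTop, 18 ≤ Real.log x :=
    Real.tendsto_log_atTop.eventually_ge_atTop 18
  have h2 : ∀ᶠ x : ℝ in Filter.atTop, 3 * (Real.log x) ^ ((4 * a : ℕ) + B + 1) ≤ x := by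
    have h := (isLittleO_log_rpow_rpow_atTop ((4 * a : ℕ) + B + 1) one_pos).def
      (show (0 : ℝ) < 1 / 3 by norm_num)
    filter_upwards [h, Filter.eventually_ge_atTop 1] with x hx hx1
    have h3 : 0 ≤ Real.log x := Real.log_nonneg hx1
    rw [Real.rpow_one, Real.norm_of_nonneg (Real.rpow_nonneg h3 _),
      Real.norm_of_nonneg (by linarith)] at hx
    linarith
  have h3 : ∀ᶠ x : ℝ in Filter.atTop, (C * Real.log (Real.log x)) ^ 5 ≤ c * Real.log x := by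
    have h4 : ∀ᶠ u : ℝ in Filter.atTop, (C * Real.log u) ^ 5 ≤ c * u := by
      have h := (Real.isLittleO_pow_log_id_atTop (n := 5)).def
        (show (0 : ℝ) < c / (|C| ^ 5 + 1) by positivity)
      filter_upwards [h, Filter.eventually_ge_atTop 1] with u hu hu1
      have h5 : 0 ≤ Real.log u := Real.log_nonneg hu1
      rw [Real.norm_of_nonneg (pow_nonneg h5 _), id, Real.norm_of_nonneg (by linarith)] at hu
      have h6 : (C * Real.log u) ^ 5 ≤ |C| ^ 5 * Real.log u ^ 5 := by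
        rw [mul_pow]
        apply mul_le_mul_of_nonneg_right _ (pow_nonneg h5 _)
        rw [← abs_pow]
        exact le_abs_self _
      have h7 : |C| ^ 5 * Real.log u ^ 5 ≤ |C| ^ 5 * (c / (|C| ^ 5 + 1) * u) :=
        mul_le_mul_of_nonneg_left hu (by positivity)
      have h8 : |C| ^ 5 * (c / (|C| ^ 5 + 1) * u) ≤ c * u := by
        have h9 : |C| ^ 5 * (c / (|C| ^ 5 + 1)) ≤ c := by
          rw [mul_div_assoc', div_le_iff₀ (by positivity)]
          nlinarith [pow_nonneg (abs_nonneg C) 5]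
        calc |C| ^ 5 * (c / (|C| ^ 5 + 1) * u) = (|C| ^ 5 * (c / (|C| ^ 5 + 1))) * u := by ring
          _ ≤ c * u := mul_le_mul_of_nonneg_right h9 (by linarith)
      linarith
    exact Real.tendsto_log_atTop.eventually h4
  obtain ⟨x0, hx0⟩ := Filter.eventually_atTop.1 (h1.and (h2.and h3))
  refine ⟨⌈x0⌉₊, fun X hX => ?_⟩
  exact hx0 X ((Nat.le_ceil x0).trans (by exact_mod_cast hX))

theorem final2 (B : ℝ) (hB : 0 < B) : ∃ A0 : ℕ, ∀ a : ℕ, A0 ≤ a →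
    ∃ C0 : ℝ, 0 < C0 ∧ ∀ C : ℝ, C0 ≤ C → ∃ X0 : ℕ, ∀ X : ℕ, X0 ≤ X → ∀ M : ℕ,
    (Real.log X) ^ C ≤ M → M ^ 3 ≤ X →
    ((((Icc 1 X).filter (fun k => (Real.log X) ^ (-B) * (HL.S ⌊(Real.log X) ^ C⌋₊ k *
        ∑ m ∈ Icc 1 M, lam ⌊(Real.log X) ^ a⌋₊ ⌊(Real.log X) ^ (2 * a)⌋₊ (m ^ 3 + k)) <
      |(TP.cE a X M k : ℝ) - HL.S ⌊(Real.log X) ^ C⌋₊ k *
        ∑ m ∈ Icc 1 M, lam ⌊(Real.log X) ^ a⌋₊ ⌊(Real.log X) ^ (2 * a)⌋₊ (m ^ 3 + k)|)).card : ℕ) : ℝ) ≤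
      X * (Real.log X) ^ (-B) := by
  classical
  obtain ⟨c, hc, hlow⟩ := low
  obtain ⟨A0, hA0, hms⟩ := ms2 (3 * B + 20) (B + 1) (by linarith) (by linarith)
  refine ⟨A0, fun a ha => ?_⟩
  obtain ⟨C0, hC0, hms⟩ := hms a ha
  refine ⟨max C0 1, by positivity, fun C hC => ?_⟩
  obtain ⟨X1, hX1⟩ := hms C ((le_max_left _ _).trans hC)
  have hC1 : 1 ≤ C := (le_max_right _ _).trans hC
  obtain ⟨X2, hX2⟩ := f2_large B C c a hc
  have hl2 : (1 / 2 : ℝ) < Real.log 2 := by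
    have := Real.log_two_gt_d9
    linarith
  obtain ⟨X3, hX3⟩ := TP.mert a (hA0.trans ha) (Real.log 2 - 1 / 2) (by linarith)
  refine ⟨max (max X1 X2) X3, fun X hX M hM hM3 => ?_⟩
  have hXX1 : X1 ≤ X := (le_max_left _ _).trans ((le_max_left _ _).trans hX)
  have hXX2 : X2 ≤ X := (le_max_right _ _).trans ((le_max_left _ _).trans hX)
  have hXX3 : X3 ≤ X := (le_max_right _ _).trans hX
  obtain ⟨hl18, hl4, hl5⟩ := hX2 X hXX2
  have hkap := hX3 X hXX3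
  set l := Real.log X with hl
  have hl0 : 0 < l := by linarith
  have hl1 : 1 ≤ l := by linarith
  have hX0 : (0 : ℝ) < X := by
    rcases Nat.eq_zero_or_pos X with h | h
    · exfalso
      rw [h, Nat.cast_zero, Real.log_zero] at hl
      linarith
    · exact_mod_cast h
  have hX1' : (1 : ℝ) ≤ X := by
    have : 0 < X := by exact_mod_cast hX0
    exact_mod_cast this
  -- `X l^(-B-1) ≥ 3 l^(4a)`
  have hXl : 3 * l ^ (4 * a) ≤ X * l ^ (-(B + 1)) := by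
    have h1 : l ^ (((4 * a : ℕ) : ℝ) + B + 1) = l ^ (4 * a) * l ^ (B + 1) := by
      rw [add_assoc, Real.rpow_add hl0, Real.rpow_natCast]
    rw [h1] at hl4
    have h2 : (0 : ℝ) < l ^ (-(B + 1)) := Real.rpow_pos_of_pos hl0 _
    have h3 : l ^ (B + 1) * l ^ (-(B + 1)) = 1 := by
      rw [← Real.rpow_add hl0, add_neg_cancel, Real.rpow_zero]
    calc 3 * l ^ (4 * a) = 3 * (l ^ (4 * a) * l ^ (B + 1)) * l ^ (-(B + 1)) := by
          rw [mul_assoc, mul_assoc, h3, mul_one]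
      _ ≤ X * l ^ (-(B + 1)) := mul_le_mul_of_nonneg_right hl4 h2.le
  have hl4a : (1 : ℝ) ≤ l ^ (4 * a) := one_le_pow₀ hl1
  obtain ⟨Z, hZ⟩ : ∃ Z : ℕ, Z = ⌈(X : ℝ) * l ^ (-(B + 1))⌉₊ := ⟨_, rfl⟩
  have hZ1 : (X : ℝ) * l ^ (-(B + 1)) ≤ Z := by
    rw [hZ]
    exact Nat.le_ceil _
  have hlB : l ^ (-(B + 1)) ≤ 1 := Real.rpow_le_one_of_one_le_of_nonpos hl1 (by linarith)
  have hZX : Z ≤ X := by
    rw [hZ]
    refine Nat.ceil_le.2 ?_
    calc (X : ℝ) * l ^ (-(B + 1)) ≤ X * 1 := mul_le_mul_of_nonneg_left hlB hX0.le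
      _ = X := mul_one _
  have hZ2 : (Z : ℝ) ≤ X * l ^ (-(B + 1)) + 1 := by
    rw [hZ]
    exact (Nat.ceil_lt_add_one (by positivity)).le
  have hms' := hX1 X hXX1 M Z hM hM3 hZ1 hZX
  -- `M > 0`
  have hlC : l ≤ l ^ C := by
    conv_lhs => rw [← Real.rpow_one l]
    exact Real.rpow_le_rpow_of_exponent_le hl1 hC1
  have hM0 : (0 : ℝ) < M := by linarith
  set P := ⌊l ^ a⌋₊ with hP
  set P2 := ⌊l ^ (2 * a)⌋₊ with hP2
  have hP2le : (P2 : ℝ) ≤ l ^ (2 * a) := Nat.floor_le (by positivity)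
  have hP22 : ((P2 * P2 : ℕ) : ℝ) ≤ l ^ (4 * a) := by
    push_cast
    calc (P2 : ℝ) * P2 ≤ l ^ (2 * a) * l ^ (2 * a) :=
          mul_le_mul hP2le hP2le (Nat.cast_nonneg _) (by positivity)
      _ = l ^ (4 * a) := by
          rw [← pow_add]
          congr 1
          ring
  have hZP : P2 * P2 ≤ Z := by
    have : ((P2 * P2 : ℕ) : ℝ) ≤ Z := by linarith
    exact_mod_cast this
  have hZ3 : 3 * P2 ≤ Z := by
    have h1 : l ^ (2 * a) ≤ l ^ (4 * a) := pow_le_pow_right₀ hl1 (by omega)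
    have : ((3 * P2 : ℕ) : ℝ) ≤ Z := by
      push_cast
      linarith
    exact_mod_cast this
  -- lower bounds
  set y := ⌊l ^ C⌋₊ with hy
  have hy3 : 3 ≤ y := by
    rw [hy]
    refine Nat.le_floor ?_
    push_cast
    linarith
  have hS : ∀ k, l⁻¹ ≤ HL.S y k := by
    intro k
    refine le_trans ?_ (hlow y k hy3)
    have hy0 : (3 : ℝ) ≤ y := by exact_mod_cast hy3
    have hlogy : 0 < Real.log y := Real.log_pos (by linarith)
    have h1 : Real.log y ≤ C * Real.log l := by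
      rw [← Real.log_rpow hl0]
      exact Real.log_le_log (by linarith) (Nat.floor_le (by positivity))
    have h2 : (Real.log y) ^ (5 : ℕ) ≤ c * l :=
      (pow_le_pow_left₀ hlogy.le h1 5).trans hl5
    rw [show (-(5 : ℝ)) = -((5 : ℕ) : ℝ) by norm_num, Real.rpow_neg hlogy.le, Real.rpow_natCast,
      ← div_eq_mul_inv, le_div_iff₀ (by positivity), inv_mul_le_iff₀ hl0, mul_comm l c]
    exact h2
  have hkap2 : (1 / 2 : ℝ) ≤ TP.kap P P2 := by
    have := (abs_le.1 hkap).1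
    linarith
  have hV : ∀ k, Z < k → k ≤ X → M / (4 * l) ≤ ∑ m ∈ Icc 1 M, lam P P2 (m ^ 3 + k) := by
    intro k hk1 hk2
    have h1 : ∀ m ∈ Icc 1 M, 1 / (4 * l) ≤ lam P P2 (m ^ 3 + k) := by
      intro m hm
      rw [mem_Icc] at hm
      refine le_trans ?_ (lam_low P P2 (m ^ 3 + k) (by omega))
      have h2 : m ^ 3 + k ≤ 2 * X := by
        have := Nat.pow_le_pow_left hm.2 3
        omega
      have h3 : 2 ≤ m ^ 3 + k := by
        have h4 : 1 ≤ m ^ 3 := Nat.one_le_pow _ _ hm.1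
        omega
      have h3' : (2 : ℝ) ≤ ((m ^ 3 + k : ℕ) : ℝ) := by exact_mod_cast h3
      have h2' : ((m ^ 3 + k : ℕ) : ℝ) ≤ 2 * X := by exact_mod_cast h2
      have h5 : Real.log ((m ^ 3 + k : ℕ) : ℝ) ≤ 2 * l := by
        calc Real.log ((m ^ 3 + k : ℕ) : ℝ) ≤ Real.log (2 * X) :=
              Real.log_le_log (by linarith) h2'
          _ = Real.log 2 + l := by rw [Real.log_mul (by norm_num) hX0.ne']
          _ ≤ 2 * l := by
              have := Real.log_two_lt_d9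
              linarith
      have h6 : 0 < Real.log ((m ^ 3 + k : ℕ) : ℝ) := Real.log_pos (by linarith)
      calc 1 / (4 * l) = (1 / 2) / (2 * l) := by
            field_simp
            norm_num
        _ ≤ (1 / 2) / Real.log ((m ^ 3 + k : ℕ) : ℝ) :=
            div_le_div_of_nonneg_left (by norm_num) h6 h5
        _ ≤ TP.kap P P2 / Real.log ((m ^ 3 + k : ℕ) : ℝ) :=
            div_le_div_of_nonneg_right hkap2 h6.le
    have h2 := card_nsmul_le_sum (Icc 1 M) (fun m => lam P P2 (m ^ 3 + k)) (1 / (4 * l)) h1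
    rw [Nat.card_Icc, nsmul_eq_mul, Nat.add_sub_cancel] at h2
    calc (M : ℝ) / (4 * l) = M * (1 / (4 * l)) := by ring
      _ ≤ _ := h2
  -- the bad `k`
  obtain ⟨bad, hbad⟩ : ∃ bad : Finset ℕ, bad = (Icc 1 X).filter (fun k => l ^ (-B) * (HL.S y k *
        ∑ m ∈ Icc 1 M, lam P P2 (m ^ 3 + k)) <
      |(TP.cE a X M k : ℝ) - HL.S y k * ∑ m ∈ Icc 1 M, lam P P2 (m ^ 3 + k)|) := ⟨_, rfl⟩
  rw [← hbad]
  have hsplit : bad ⊆ Icc 1 Z ∪ bad.filter (fun k => Z < k) := by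
    intro k hk
    rw [mem_union]
    by_cases h : Z < k
    · exact Or.inr (mem_filter.2 ⟨hk, h⟩)
    · left
      rw [hbad, mem_filter, mem_Icc] at hk
      rw [mem_Icc]
      omega
  have hcard1 : bad.card ≤ Z + (bad.filter (fun k => Z < k)).card := by
    calc bad.card ≤ (Icc 1 Z ∪ bad.filter (fun k => Z < k)).card := card_le_card hsplit
      _ ≤ (Icc 1 Z).card + (bad.filter (fun k => Z < k)).card := card_union_le _ _
      _ = Z + (bad.filter (fun k => Z < k)).card := by rw [Nat.card_Icc, Nat.add_sub_cancel]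
  have hlB2 : (0 : ℝ) < l ^ (-B) := Real.rpow_pos_of_pos hl0 _
  have hbig : ∀ k ∈ bad.filter (fun k => Z < k), (l ^ (-B) * (l⁻¹ * (M / (4 * l)))) ^ 2 ≤
      (∑ m ∈ Icc 1 M, ue P P2 (m ^ 3 + k) - HL.S y k *
        ∑ m ∈ Icc 1 M, lam P P2 (m ^ 3 + k)) ^ 2 := by
    intro k hk
    rw [mem_filter, hbad, mem_filter, mem_Icc] at hk
    obtain ⟨⟨⟨hk1, hk2⟩, hk3⟩, hk4⟩ := hk
    have h1 : ∑ m ∈ Icc 1 M, ue P P2 (m ^ 3 + k) = (TP.cE a X M k : ℝ) :=
      f2_sum a X M k hl0.le (lt_of_le_of_lt hZP hk4)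
    rw [h1]
    rw [← sq_abs ((TP.cE a X M k : ℝ) - _)]
    refine pow_le_pow_left₀ (by positivity) ?_ 2
    refine le_trans ?_ hk3.le
    refine mul_le_mul_of_nonneg_left ?_ hlB2.le
    exact mul_le_mul (hS k) (hV k hk4 hk2) (by positivity) ((inv_pos.2 hl0).le.trans (hS k))
  have hsum : ((bad.filter (fun k => Z < k)).card : ℝ) * (l ^ (-B) * (l⁻¹ * (M / (4 * l)))) ^ 2 ≤
      X * (M : ℝ) ^ 2 * l ^ (-(3 * B + 20)) := by
    have h1 := card_nsmul_le_sum (bad.filter (fun k => Z < k)) _ _ hbig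
    rw [nsmul_eq_mul] at h1
    refine h1.trans (le_trans ?_ hms')
    refine sum_le_sum_of_subset_of_nonneg ?_ fun k _ _ => sq_nonneg _
    intro k hk
    rw [mem_filter, hbad, mem_filter, mem_Icc] at hk
    rw [mem_Ioc]
    exact ⟨hk.2, hk.1.1.2⟩
  -- conclusion
  have hl2B : (l ^ (-B)) ^ 2 = l ^ (-(2 * B)) := by
    rw [← Real.rpow_natCast, ← Real.rpow_mul hl0.le]
    congr 1
    push_cast
    ring
  have hexp : l ^ (-(3 * B + 20)) = l ^ (-(2 * B)) * (l ^ (-(B + 1)) * l ^ (-(19 : ℝ))) := by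
    rw [← Real.rpow_add hl0, ← Real.rpow_add hl0]
    congr 1
    ring
  have h19 : l ^ (-(19 : ℝ)) = (l ^ 19)⁻¹ := by
    rw [Real.rpow_neg hl0.le]
    congr 1
    exact_mod_cast Real.rpow_natCast l 19
  have hcard2 : ((bad.filter (fun k => Z < k)).card : ℝ) ≤ 16 * X * l ^ (-(B + 1)) := by
    have e1 : (l ^ (-B) * (l⁻¹ * (M / (4 * l)))) ^ 2 =
        l ^ (-(2 * B)) * ((M : ℝ) ^ 2 * (1 / (16 * l ^ 4))) := by
      rw [mul_pow, hl2B]
      congr 1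
      field_simp
      norm_num
    rw [e1, hexp, h19] at hsum
    have hpos : 0 < l ^ (-(2 * B)) * (M : ℝ) ^ 2 := by positivity
    have h2 : ((bad.filter (fun k => Z < k)).card : ℝ) * (1 / (16 * l ^ 4)) ≤
        X * (l ^ (-(B + 1)) * (l ^ 19)⁻¹) := by
      refine le_of_mul_le_mul_left ?_ hpos
      calc l ^ (-(2 * B)) * (M : ℝ) ^ 2 *
            (((bad.filter (fun k => Z < k)).card : ℝ) * (1 / (16 * l ^ 4))) =
          ((bad.filter (fun k => Z < k)).card : ℝ) *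
            (l ^ (-(2 * B)) * ((M : ℝ) ^ 2 * (1 / (16 * l ^ 4)))) := by ring
        _ ≤ _ := hsum
        _ = _ := by ring
    have h3 : ((bad.filter (fun k => Z < k)).card : ℝ) ≤
        X * (l ^ (-(B + 1)) * (l ^ 19)⁻¹) * (16 * l ^ 4) := by
      rw [mul_one_div, div_le_iff₀ (by positivity)] at h2
      exact h2
    refine h3.trans ?_
    have h4 : (l ^ 19)⁻¹ * l ^ 4 ≤ 1 := by
      rw [inv_mul_le_iff₀ (by positivity), mul_one]
      exact pow_le_pow_right₀ hl1 (by norm_num)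
    calc X * (l ^ (-(B + 1)) * (l ^ 19)⁻¹) * (16 * l ^ 4) =
        16 * X * l ^ (-(B + 1)) * ((l ^ 19)⁻¹ * l ^ 4) := by ring
      _ ≤ 16 * X * l ^ (-(B + 1)) * 1 := mul_le_mul_of_nonneg_left h4 (by positivity)
      _ = 16 * X * l ^ (-(B + 1)) := mul_one _
  have hcard3 : (bad.card : ℝ) ≤ Z + ((bad.filter (fun k => Z < k)).card : ℝ) := by
    exact_mod_cast hcard1
  have hone : (1 : ℝ) ≤ X * l ^ (-(B + 1)) := by linarith
  have hfin : 18 * (X * l ^ (-(B + 1))) ≤ X * l ^ (-B) := by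
    have h1 : l ^ (-B) = l * l ^ (-(B + 1)) := by
      conv_rhs => rw [← Real.rpow_one l, ← Real.rpow_mul hl0.le, one_mul, ← Real.rpow_add hl0]
      congr 1
      ring
    rw [h1]
    calc 18 * (X * l ^ (-(B + 1))) ≤ l * (X * l ^ (-(B + 1))) :=
          mul_le_mul_of_nonneg_right hl18 (by positivity)
      _ = X * (l * l ^ (-(B + 1))) := by ring
  linarith

end Pool.Agent.H43.TQ
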