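import Pool.Agent.H43.TP.Or
import Pool.Agent.H43.TQ.Defs

/-!
# [H43 TQ OR2] Orthogonality, general form

PROOF. Exactly the proof of `TP.orth` (`H43/TP/Or.lean`; its lemmas are available): only `Q0 < r <= Q` is used there. Pairs `r ≠ r'`:
`<= Q^4`; the diagonal: `Σ_{k<=X} (ar r k)^2 <= X * 25 r^(-3/2) + r` for squarefree `r` (`0` otherwise), `Σ_{r>Q0} r^(-3/2) <= 2 Q0^(-1/2)`.
-/

namespace Pool.Agent.H43.TQ

open Finset

open TP in
theorem orth2 (Q0 Q X : ℕ) (hQ0 : 1 ≤ Q0) (s : Finset ℕ) (hs : ∀ r ∈ s, Q0 < r ∧ r ≤ Q) :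
    ∑ k ∈ Icc 1 X, (∑ r ∈ s, TP.ar r k) ^ 2 ≤
      50 * X * (Q0 : ℝ) ^ (-(1 : ℝ) / 2) + 2 * (Q : ℝ) ^ 4 := by
  classical
  rcases s.eq_empty_or_nonempty with hse | hse
  · subst hse
    simp only [sum_empty, ne_eq, OfNat.ofNat_ne_zero, not_false_eq_true, zero_pow,
      sum_const_zero]
    positivity
  obtain ⟨r0, hr0⟩ := hse
  have hQ : 1 ≤ Q := by
    have := hs r0 hr0
    omega
  set R := s.filter Squarefree with hR
  have hRQ : ∀ r ∈ R, r ≤ Q := fun r hr => (hs r (mem_filter.1 hr).1).2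
  have hRs : ∀ r ∈ R, Squarefree r := fun r hr => (mem_filter.1 hr).2
  have hRy : ∀ r ∈ R, Q0 < r := fun r hr => (hs r (mem_filter.1 hr).1).1
  have hcard : (R.card : ℝ) ≤ Q := by
    have h1 : R.card ≤ (Icc 1 Q).card := by
      refine card_le_card fun r hr => mem_Icc.2 ⟨?_, hRQ r hr⟩
      have := hRy r hr
      omega
    rw [Nat.card_Icc, Nat.add_sub_cancel] at h1
    exact_mod_cast h1
  have hQ1 : (1 : ℝ) ≤ Q := by exact_mod_cast hQ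
  have hy1 : (1 : ℝ) ≤ Q0 := by exact_mod_cast hQ0
  have e1 : ∀ k, ∑ r ∈ s, ar r k = ∑ r ∈ R, ar r k := by
    intro k
    refine (sum_filter_of_ne fun r _ hne => ?_).symm
    by_contra hns
    exact hne (ar_sqf r k hns)
  have e2 : ∑ k ∈ Icc 1 X, (∑ r ∈ s, ar r k) ^ 2 =
      ∑ r ∈ R, ∑ r' ∈ R, ∑ k ∈ Icc 1 X, ar r k * ar r' k := by
    rw [sum_congr rfl fun k _ => by rw [e1 k, sq, sum_mul_sum], sum_comm]
    refine sum_congr rfl fun r _ => ?_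
    rw [sum_comm]
  rw [e2]
  have h1 : ∀ r ∈ R, ∑ r' ∈ R, ∑ k ∈ Icc 1 X, ar r k * ar r' k ≤
      4 * X * (1 / ((r : ℝ) * √(r : ℝ))) + Q + (Q : ℝ) ^ 3 := by
    intro r hr
    rw [← add_sum_erase R _ hr]
    have hrQ : (r : ℝ) ≤ Q := by exact_mod_cast hRQ r hr
    have h2 : ∑ r' ∈ R.erase r, ∑ k ∈ Icc 1 X, ar r k * ar r' k ≤ (Q : ℝ) ^ 3 := by
      calc ∑ r' ∈ R.erase r, ∑ k ∈ Icc 1 X, ar r k * ar r' k
          ≤ ∑ r' ∈ R.erase r, (Q : ℝ) * Q := by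
            refine sum_le_sum fun r' hr' => ?_
            have h3 := mem_erase.1 hr'
            have hr'Q : (r' : ℝ) ≤ Q := by exact_mod_cast hRQ r' h3.2
            refine (or_off r r' X (hRs r hr) (hRs r' h3.2) h3.1.symm).trans ?_
            gcongr
        _ = ((R.erase r).card : ℝ) * (Q * Q) := by rw [sum_const, nsmul_eq_mul]
        _ ≤ Q * (Q * Q) := by
            have h4 : ((R.erase r).card : ℝ) ≤ Q :=
              le_trans (by exact_mod_cast card_erase_le) hcard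
            gcongr
        _ = (Q : ℝ) ^ 3 := by ring
    have h5 := or_diag r X (hRs r hr)
    linarith
  refine (sum_le_sum h1).trans ?_
  rw [sum_add_distrib, sum_add_distrib, sum_const, sum_const, nsmul_eq_mul, nsmul_eq_mul,
    ← mul_sum]
  have h6 : ∑ r ∈ R, 1 / ((r : ℝ) * √(r : ℝ)) ≤ 2 * (1 / √(Q0 : ℝ)) := by
    have hge : Q0 ≤ Q := by
      have := hs r0 hr0
      omega
    have hsub : R ⊆ Ioc Q0 Q := fun r hr => mem_Ioc.2 ⟨hRy r hr, hRQ r hr⟩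
    refine (sum_le_sum_of_subset_of_nonneg hsub fun r _ _ => by positivity).trans ?_
    refine (or_tail Q0 Q hQ0 hge).trans ?_
    have : 0 ≤ 1 / √(Q : ℝ) := by positivity
    linarith
  have h7 : (Q0 : ℝ) ^ (-(1 : ℝ) / 2) = 1 / √(Q0 : ℝ) := by
    rw [Real.sqrt_eq_rpow, neg_div, Real.rpow_neg (by linarith), one_div ((Q0 : ℝ) ^ _)]
  rw [h7]
  have hX : (0 : ℝ) ≤ X := Nat.cast_nonneg _
  have h8 : 0 ≤ 1 / √(Q0 : ℝ) := by positivity
  have h9 : 4 * (X : ℝ) * ∑ r ∈ R, 1 / ((r : ℝ) * √(r : ℝ)) ≤ 50 * X * (1 / √(Q0 : ℝ)) := by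
    have := mul_le_mul_of_nonneg_left h6 (by positivity : (0 : ℝ) ≤ 4 * X)
    nlinarith [mul_nonneg hX h8]
  have h10 : (R.card : ℝ) * Q ≤ (Q : ℝ) ^ 4 := by
    calc (R.card : ℝ) * Q ≤ Q * Q := by gcongr
      _ = (Q : ℝ) ^ 2 := by ring
      _ ≤ (Q : ℝ) ^ 4 := pow_le_pow_right₀ hQ1 (by norm_num)
  have h11 : (R.card : ℝ) * (Q : ℝ) ^ 3 ≤ (Q : ℝ) ^ 4 := by
    calc (R.card : ℝ) * (Q : ℝ) ^ 3 ≤ Q * (Q : ℝ) ^ 3 := by gcongr
      _ = (Q : ℝ) ^ 4 := by ring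
  linarith

end Pool.Agent.H43.TQ
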