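import Pool.Agent.H43.TP.Tra
import Pool.Agent.H43.TP.L2m
import Pool.Agent.H43.TP.Mert
import Pool.Agent.H43.TQ.Fa2
import Pool.Agent.H43.TQ.Or2
import Pool.Agent.H43.TQ.Ran
import Pool.Agent.H43.TQ.Mt2

/-!
# [H43 TQ MS2] The mean square theorem

PROOF. `ℓ = log X`, `k0 = ⌈A⌉₊ + 4`, `κ = ℓ^(-k0)`, `Q = ⌈2^64 ℓ^(24 k0)⌉₊` (`2^64/κ^24 <= Q <= ℓ^(25 k0)` for `X` large). `fa2` with
`(25 k0, 100 k0 + A + 4, B')` gives `A2`; `A0 = ⌈A2⌉₊ + 1`; for `a >= A0` let `A3 = 2a` and `C1, A1` from `fa2`;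
`P = ⌊ℓ^a⌋ >= ℓ^A2`, `P <= P2 = ⌊ℓ^(2a)⌋ <= ℓ^A3`. `h = ⌊M^3/(6 Q ℓ^A1)⌋`: `6hQ <= M^3`, `h <= X ℓ^(-A1)` (`A1 > 0`, `M^3 <= X`), and
`h >= ℓ^C1`, `h >= 1`, if `M >= ℓ^C0`, `C0 = C1 + A1 + 200 k0 + 2A + 20` (`C0` also controls the other terms). Let `C >= C0`, `M >= ℓ^C`,
`y = ⌊ℓ^C⌋`.
(1) `tra` with `a = aw P P2 Q X Z`, `V = X h^2 ℓ^(-100k0-A-4)`: `Σ_{k<=X} ‖Σ_m aw(m^3+k)‖^2 <= κ^2 M^2 Σ ‖aw n‖^2 + 4M^2 Q^4 V/h^2`, the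
last `<= 4 M^2 X ℓ^(-A-4)`. `Σ_{n<=2X} ‖aw n‖^2 <= 2*4*2X + 2 ℓ^2 Σ lq^2 <= X ℓ^4` (`ue <= 2`; `lam <= kap <= ℓ` for `n > Z >= 3P2`; `l2m`),
so the first term is `<= X M^2 ℓ^(4-2k0) <= X M^2 ℓ^(-A-3)`.
(2) For `k ∈ (Z, X]`, `m <= M`: `Z < m^3+k <= 2X`, so `Σ_m aw(m^3+k) = Σ_m ue(m^3+k) - Σ_m lam(m^3+k) lq(m^3+k)`; `mt2` with
`w m = lam P P2 (m^3+k)` (decreasing, `lam_anti`; `w 1 <= ℓ`): `= Σ ue - V(k) Σ_{r<=Q} ar r k + O(2Q^2 ℓ)`, `V(k) = Σ_m lam(m^3+k) <= M ℓ`.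
(3) `Σ_{r<=Q} ar r k - S y k`: with `R = ⌈X^(1/10)⌉₊ (>= Q)`, `S y k = Σ_{r ∣ Wy y, r <= R} ar + O(ℓ^(-A-10))` (`ran`), so the difference
is `Σ_{r<=Q, r ∤ Wy y} ar - Σ_{r ∣ Wy y, Q < r <= R} ar + O(ℓ^(-A-10))`; for the first only squarefree `r` matter (`TP.ar_sqf`), they have a
prime factor `> y`, so `r > y`: `orth2` with `Q0 = y`; the second: `orth2` with `Q0 = Q`. So
`Σ_{k<=X} (..)^2 <= 3 (50 X y^(-1/2) + 2Q^4 + 50 X Q^(-1/2) + 2R^4 + X ℓ^(-2A-20)) <= X ℓ^(-A-5)` (`R^4 <= 16 X^(2/5)`, `y^(-1/2) <= 2ℓ^(-C/2)`,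
`Q^(-1/2) <= ℓ^(-12k0)`).
Total: `3 (5 X M^2 ℓ^(-A-3)) + 3 X (2Q^2 ℓ)^2 + 3 M^2 ℓ^2 X ℓ^(-A-5) <= X M^2 ℓ^(-A)` for `X` large (`Q^4 ℓ^2 <= ℓ^(100k0+2) <= M ℓ^(-A-1)`).
-/

namespace Pool.Agent.H43.TQ

open Finset

private theorem ms2_sq3 (a b c : ℝ) : (a + b + c) ^ 2 ≤ 3 * a ^ 2 + 3 * b ^ 2 + 3 * c ^ 2 := by
  nlinarith [sq_nonneg (a - b), sq_nonneg (b - c), sq_nonneg (a - c)]

private theorem ms2_aw (P P2 Q X Z : ℕ) (L : ℝ) (hQ : 1 ≤ Q) (hZ : 3 * P2 ≤ Z)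
    (hL : TP.kap P P2 ≤ L) :
    ∑ n ∈ Icc 1 (2 * X), ‖aw P P2 Q X Z n‖ ^ 2 ≤
      16 * X + 2 * L ^ 2 * (4 * X * (1 + Real.log Q) ^ 2 + 4 * (Q : ℝ) ^ 4) := by
  have hk : 0 ≤ TP.kap P P2 := sum_nonneg fun _ _ => by positivity
  have h1 : ∀ n ∈ Icc 1 (2 * X), ‖aw P P2 Q X Z n‖ ^ 2 ≤ 8 + 2 * L ^ 2 * (TP.lq Q n) ^ 2 := by
    intro n _
    unfold aw
    split_ifs with h
    · rw [Complex.norm_real, Real.norm_eq_abs, sq_abs]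
      have hn : 3 * P2 ≤ n := hZ.trans h.1.le
      have h2 := lam_nonneg P P2 n hn
      have h3 := (lam_le P P2 n hn).trans hL
      have h4 := ue_le P P2 n
      have h5 : 0 ≤ ue P P2 n := by unfold ue; exact Nat.cast_nonneg _
      have h6 : (ue P P2 n) ^ 2 ≤ 4 := by nlinarith
      have h7 : (lam P P2 n * TP.lq Q n) ^ 2 ≤ L ^ 2 * (TP.lq Q n) ^ 2 := by
        rw [mul_pow]
        exact mul_le_mul_of_nonneg_right (pow_le_pow_left₀ h2 h3 2) (sq_nonneg _)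
      nlinarith [sq_nonneg (ue P P2 n + lam P P2 n * TP.lq Q n)]
    · rw [norm_zero, zero_pow two_ne_zero]
      positivity
  refine (sum_le_sum h1).trans ?_
  rw [sum_add_distrib, ← mul_sum, sum_const, Nat.card_Icc, nsmul_eq_mul, Nat.add_sub_cancel]
  have h2 := TP.l2m Q (2 * X) hQ
  push_cast at h2 ⊢
  have h3 := mul_le_mul_of_nonneg_left h2 (by positivity : (0 : ℝ) ≤ 2 * L ^ 2)
  nlinarith [h3]

private theorem ms2_win (P P2 Q X Z M k : ℕ) (hM : M ^ 3 ≤ X) (hk : k ∈ Ioc Z X) :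
    ‖∑ m ∈ Icc 1 M, aw P P2 Q X Z (m ^ 3 + k)‖ ^ 2 =
      (∑ m ∈ Icc 1 M, ue P P2 (m ^ 3 + k) -
        ∑ m ∈ Icc 1 M, lam P P2 (m ^ 3 + k) * TP.lq Q (m ^ 3 + k)) ^ 2 := by
  rw [mem_Ioc] at hk
  have h1 : ∑ m ∈ Icc 1 M, aw P P2 Q X Z (m ^ 3 + k) =
      ((∑ m ∈ Icc 1 M, ue P P2 (m ^ 3 + k) -
        ∑ m ∈ Icc 1 M, lam P P2 (m ^ 3 + k) * TP.lq Q (m ^ 3 + k) : ℝ) : ℂ) := by
    rw [← sum_sub_distrib, Complex.ofReal_sum]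
    refine sum_congr rfl fun m hm => ?_
    rw [mem_Icc] at hm
    have h2 : m ^ 3 ≤ M ^ 3 := Nat.pow_le_pow_left hm.2 3
    unfold aw
    rw [if_pos ⟨by omega, by omega⟩]
  rw [h1, Complex.norm_real, Real.norm_eq_abs, sq_abs]

private theorem ms2_dvd (y r : ℕ) (hr : Squarefree r) (hy : r ≤ y) : r ∣ TP.Wy y := by
  rw [← Nat.prod_primeFactors_of_squarefree hr]
  unfold TP.Wy
  refine prod_dvd_prod_of_subset _ _ _ ?_
  intro p hp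
  rw [mem_filter, mem_Icc]
  have h1 := Nat.prime_of_mem_primeFactors hp
  have h0 : r ≠ 0 := hr.ne_zero
  have h2 := Nat.le_of_dvd (Nat.pos_of_ne_zero h0) (Nat.dvd_of_mem_primeFactors hp)
  exact ⟨⟨h1.one_lt.le, h2.trans hy⟩, h1⟩

private theorem ms2_split (y Q R k : ℕ) (hQR : Q ≤ R) :
    ∑ r ∈ Icc 1 Q, TP.ar r k =
      ∑ r ∈ (Icc 1 Q).filter (fun r => Squarefree r ∧ ¬ r ∣ TP.Wy y), TP.ar r k +
      (∑ r ∈ (TP.Wy y).divisors.filter (fun r => r ≤ R), TP.ar r k -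
        ∑ r ∈ (TP.Wy y).divisors.filter (fun r => Q < r ∧ r ≤ R), TP.ar r k) := by
  have hW : TP.Wy y ≠ 0 := by
    unfold TP.Wy
    refine prod_ne_zero_iff.2 fun p hp => ?_
    exact (mem_filter.1 hp).2.ne_zero
  have h1 : ∑ r ∈ (TP.Wy y).divisors.filter (fun r => r ≤ R), TP.ar r k =
      ∑ r ∈ (TP.Wy y).divisors.filter (fun r => r ≤ Q), TP.ar r k +
        ∑ r ∈ (TP.Wy y).divisors.filter (fun r => Q < r ∧ r ≤ R), TP.ar r k := by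
    rw [← sum_filter_add_sum_filter_not ((TP.Wy y).divisors.filter (fun r => r ≤ R)) (fun r => r ≤ Q)]
    congr 1
    · refine sum_congr ?_ fun _ _ => rfl
      ext r
      simp only [mem_filter]
      constructor
      · rintro ⟨⟨h1, h2⟩, h3⟩
        exact ⟨h1, h3⟩
      · rintro ⟨h1, h2⟩
        exact ⟨⟨h1, h2.trans hQR⟩, h2⟩
    · refine sum_congr ?_ fun _ _ => rfl
      ext r
      simp only [mem_filter, not_le]
      constructor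
      · rintro ⟨⟨h1, h2⟩, h3⟩
        exact ⟨h1, h3, h2⟩
      · rintro ⟨h1, h2, h3⟩
        exact ⟨⟨h1, h3⟩, h2⟩
  have h2 : ∑ r ∈ Icc 1 Q, TP.ar r k =
      ∑ r ∈ (Icc 1 Q).filter (fun r => Squarefree r ∧ ¬ r ∣ TP.Wy y), TP.ar r k +
        ∑ r ∈ (TP.Wy y).divisors.filter (fun r => r ≤ Q), TP.ar r k := by
    rw [← sum_filter_add_sum_filter_not (Icc 1 Q) (fun r => r ∣ TP.Wy y), add_comm]
    congr 1
    · symm
      refine sum_subset_zero_on_sdiff ?_ ?_ fun _ _ => rfl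
      · intro r hr
        rw [mem_filter] at hr ⊢
        exact ⟨hr.1, hr.2.2⟩
      · intro r hr
        rw [mem_sdiff, mem_filter, mem_filter] at hr
        refine TP.ar_sqf r k fun hs => hr.2 ⟨hr.1.1, hs, hr.1.2⟩
    · refine sum_congr ?_ fun _ _ => rfl
      ext r
      simp only [mem_filter, mem_Icc, Nat.mem_divisors]
      constructor
      · rintro ⟨⟨h1, h2⟩, h3⟩
        exact ⟨⟨h3, hW⟩, h2⟩
      · rintro ⟨⟨h1, h2⟩, h3⟩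
        exact ⟨⟨Nat.pos_of_dvd_of_pos h1 (Nat.pos_of_ne_zero hW), h3⟩, h1⟩
  rw [h2, h1]
  ring

private theorem ms2_sing (y Q R X : ℕ) (ρ : ℝ) (hy : 1 ≤ y) (hQ : 1 ≤ Q) (hQR : Q ≤ R)
    (hρ : ∀ k, |HL.S y k - ∑ r ∈ (TP.Wy y).divisors.filter (fun r => r ≤ R), TP.ar r k| ≤ ρ) :
    ∑ k ∈ Icc 1 X, (∑ r ∈ Icc 1 Q, TP.ar r k - HL.S y k) ^ 2 ≤
      3 * (50 * X * (y : ℝ) ^ (-(1 : ℝ) / 2) + 2 * (Q : ℝ) ^ 4) +
      3 * (50 * X * (Q : ℝ) ^ (-(1 : ℝ) / 2) + 2 * (R : ℝ) ^ 4) + 3 * (X * ρ ^ 2) := by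
  have h1 := orth2 y Q X hy ((Icc 1 Q).filter (fun r => Squarefree r ∧ ¬ r ∣ TP.Wy y)) (by
    intro r hr
    rw [mem_filter, mem_Icc] at hr
    refine ⟨?_, hr.1.2⟩
    by_contra hcon
    exact hr.2.2 (ms2_dvd y r hr.2.1 (not_lt.1 hcon)))
  have h2 := orth2 Q R X hQ ((TP.Wy y).divisors.filter (fun r => Q < r ∧ r ≤ R)) (by
    intro r hr
    rw [mem_filter] at hr
    exact hr.2)
  have h3 : ∀ k ∈ Icc 1 X, (∑ r ∈ Icc 1 Q, TP.ar r k - HL.S y k) ^ 2 ≤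
      3 * (∑ r ∈ (Icc 1 Q).filter (fun r => Squarefree r ∧ ¬ r ∣ TP.Wy y), TP.ar r k) ^ 2 +
      3 * (∑ r ∈ (TP.Wy y).divisors.filter (fun r => Q < r ∧ r ≤ R), TP.ar r k) ^ 2 +
      3 * ρ ^ 2 := by
    intro k _
    have h4 := hρ k
    have h5 : (HL.S y k - ∑ r ∈ (TP.Wy y).divisors.filter (fun r => r ≤ R), TP.ar r k) ^ 2 ≤
        ρ ^ 2 := by
      rw [← sq_abs]
      exact pow_le_pow_left₀ (abs_nonneg _) h4 2
    rw [ms2_split y Q R k hQR]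
    have h6 := ms2_sq3
      (∑ r ∈ (Icc 1 Q).filter (fun r => Squarefree r ∧ ¬ r ∣ TP.Wy y), TP.ar r k)
      (-∑ r ∈ (TP.Wy y).divisors.filter (fun r => Q < r ∧ r ≤ R), TP.ar r k)
      (-(HL.S y k - ∑ r ∈ (TP.Wy y).divisors.filter (fun r => r ≤ R), TP.ar r k))
    rw [neg_sq, neg_sq] at h6
    refine le_trans (le_of_eq ?_) (h6.trans (by linarith))
    ring
  refine (sum_le_sum h3).trans ?_
  rw [sum_add_distrib, sum_add_distrib, ← mul_sum, ← mul_sum, sum_const, Nat.card_Icc,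
    nsmul_eq_mul, Nat.add_sub_cancel]
  linarith

private theorem ms2_core (P P2 Q X Z M h y R : ℕ) (κ V L ρ : ℝ) (hM : M ^ 3 ≤ X)
    (hZ : 3 * P2 ≤ Z) (hκ : 0 < κ) (hκ1 : κ ≤ 1) (hκM : 2 ^ 24 ≤ κ ^ 9 * (M : ℝ))
    (hQ : 2 ^ 64 / κ ^ 24 ≤ (Q : ℝ)) (hh : 1 ≤ h) (hhQ : 6 * h * Q ≤ M ^ 3)
    (hV : ∀ q c : ℕ, 1 ≤ q → q ≤ Q → c < q →
      ∑ x ∈ Icc 1 (2 * X + h), ‖∑ n ∈ (Ioc (x - h) x).filter (fun n => n ≤ 2 * X ∧ n % q = c),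
        aw P P2 Q X Z n‖ ^ 2 ≤ V) (hL : TP.kap P P2 ≤ L) (hy : 1 ≤ y) (hQR : Q ≤ R)
    (hρ : ∀ k, |HL.S y k - ∑ r ∈ (TP.Wy y).divisors.filter (fun r => r ≤ R), TP.ar r k| ≤ ρ) :
    ∑ k ∈ Ioc Z X, (∑ m ∈ Icc 1 M, ue P P2 (m ^ 3 + k) -
        HL.S y k * ∑ m ∈ Icc 1 M, lam P P2 (m ^ 3 + k)) ^ 2 ≤
      3 * (κ ^ 2 * (M : ℝ) ^ 2 *
          (16 * X + 2 * L ^ 2 * (4 * X * (1 + Real.log Q) ^ 2 + 4 * (Q : ℝ) ^ 4)) +
        4 * (M : ℝ) ^ 2 * (Q : ℝ) ^ 4 * V / (h : ℝ) ^ 2) +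
      3 * (X * (2 * (Q : ℝ) ^ 2 * L) ^ 2) +
      3 * ((M * L) ^ 2 * (3 * (50 * X * (y : ℝ) ^ (-(1 : ℝ) / 2) + 2 * (Q : ℝ) ^ 4) +
        3 * (50 * X * (Q : ℝ) ^ (-(1 : ℝ) / 2) + 2 * (R : ℝ) ^ 4) + 3 * (X * ρ ^ 2))) := by
  have hQ1 : (1 : ℝ) ≤ Q := by
    refine le_trans ?_ hQ
    rw [le_div_iff₀ (by positivity), one_mul]
    calc κ ^ 24 ≤ 1 := pow_le_one₀ hκ.le hκ1
      _ ≤ 2 ^ 64 := by norm_num
  have hQ1' : 1 ≤ Q := by exact_mod_cast hQ1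
  have hk : 0 ≤ TP.kap P P2 := sum_nonneg fun _ _ => by positivity
  have hL0 : 0 ≤ L := hk.trans hL
  have htra := TP.tra (aw P P2 Q X Z) M X Q h κ V hM hκ hκ1 hκM hQ hh hhQ hV
  have haw := ms2_aw P P2 Q X Z L hQ1' hZ hL
  have hsing := ms2_sing y Q R X ρ hy hQ1' hQR hρ
  have hsub : Ioc Z X ⊆ Icc 1 X := by
    intro k hk
    rw [mem_Ioc] at hk
    rw [mem_Icc]
    omega
  have h1 : ∀ k ∈ Ioc Z X, (∑ m ∈ Icc 1 M, ue P P2 (m ^ 3 + k) -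
        HL.S y k * ∑ m ∈ Icc 1 M, lam P P2 (m ^ 3 + k)) ^ 2 ≤
      3 * ‖∑ m ∈ Icc 1 M, aw P P2 Q X Z (m ^ 3 + k)‖ ^ 2 + 3 * (2 * (Q : ℝ) ^ 2 * L) ^ 2 +
      3 * ((M * L) ^ 2 * (∑ r ∈ Icc 1 Q, TP.ar r k - HL.S y k) ^ 2) := by
    intro k hk
    rw [ms2_win P P2 Q X Z M k hM hk]
    have hk2 := mem_Ioc.1 hk
    have hn : ∀ m : ℕ, 3 * P2 ≤ m ^ 3 + k := fun m => by omega
    have h2 := mt2 Q M k (fun m => lam P P2 (m ^ 3 + k))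
      (fun m _ => lam_anti P P2 _ _ (hn m) (by
        have : m ^ 3 ≤ (m + 1) ^ 3 := Nat.pow_le_pow_left (by omega) 3
        omega))
      (fun m _ => lam_nonneg P P2 _ (hn m))
    have h3 : |∑ m ∈ Icc 1 M, lam P P2 (m ^ 3 + k) * TP.lq Q (m ^ 3 + k) -
        (∑ m ∈ Icc 1 M, lam P P2 (m ^ 3 + k)) * ∑ r ∈ Icc 1 Q, TP.ar r k| ≤
        2 * (Q : ℝ) ^ 2 * L := by
      refine h2.trans ?_
      have h4 : lam P P2 (1 ^ 3 + k) ≤ L := (lam_le P P2 _ (hn 1)).trans hL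
      exact mul_le_mul_of_nonneg_left h4 (by positivity)
    have h5 : (∑ m ∈ Icc 1 M, lam P P2 (m ^ 3 + k) * TP.lq Q (m ^ 3 + k) -
        (∑ m ∈ Icc 1 M, lam P P2 (m ^ 3 + k)) * ∑ r ∈ Icc 1 Q, TP.ar r k) ^ 2 ≤
        (2 * (Q : ℝ) ^ 2 * L) ^ 2 := by
      rw [← sq_abs]
      exact pow_le_pow_left₀ (abs_nonneg _) h3 2
    have h6 : 0 ≤ ∑ m ∈ Icc 1 M, lam P P2 (m ^ 3 + k) :=
      sum_nonneg fun m _ => lam_nonneg P P2 _ (hn m)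
    have h7 : ∑ m ∈ Icc 1 M, lam P P2 (m ^ 3 + k) ≤ M * L := by
      have h8 := sum_le_card_nsmul (Icc 1 M) (fun m => lam P P2 (m ^ 3 + k)) L
        (fun m _ => (lam_le P P2 _ (hn m)).trans hL)
      rw [Nat.card_Icc, nsmul_eq_mul, Nat.add_sub_cancel] at h8
      exact h8
    have h9 : (∑ m ∈ Icc 1 M, lam P P2 (m ^ 3 + k)) ^ 2 *
        (∑ r ∈ Icc 1 Q, TP.ar r k - HL.S y k) ^ 2 ≤
        (M * L) ^ 2 * (∑ r ∈ Icc 1 Q, TP.ar r k - HL.S y k) ^ 2 :=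
      mul_le_mul_of_nonneg_right (pow_le_pow_left₀ h6 h7 2) (sq_nonneg _)
    have h10 := ms2_sq3
      (∑ m ∈ Icc 1 M, ue P P2 (m ^ 3 + k) -
        ∑ m ∈ Icc 1 M, lam P P2 (m ^ 3 + k) * TP.lq Q (m ^ 3 + k))
      (∑ m ∈ Icc 1 M, lam P P2 (m ^ 3 + k) * TP.lq Q (m ^ 3 + k) -
        (∑ m ∈ Icc 1 M, lam P P2 (m ^ 3 + k)) * ∑ r ∈ Icc 1 Q, TP.ar r k)
      ((∑ m ∈ Icc 1 M, lam P P2 (m ^ 3 + k)) * (∑ r ∈ Icc 1 Q, TP.ar r k - HL.S y k))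
    rw [mul_pow (∑ m ∈ Icc 1 M, lam P P2 (m ^ 3 + k))] at h10
    refine le_trans (le_of_eq ?_) (h10.trans (by linarith))
    ring
  refine (sum_le_sum h1).trans ?_
  rw [sum_add_distrib, sum_add_distrib, ← mul_sum, ← mul_sum, ← mul_sum, sum_const,
    Nat.card_Ioc, nsmul_eq_mul]
  have h2 : ∑ k ∈ Ioc Z X, ‖∑ m ∈ Icc 1 M, aw P P2 Q X Z (m ^ 3 + k)‖ ^ 2 ≤
      κ ^ 2 * (M : ℝ) ^ 2 *
          (16 * X + 2 * L ^ 2 * (4 * X * (1 + Real.log Q) ^ 2 + 4 * (Q : ℝ) ^ 4)) +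
        4 * (M : ℝ) ^ 2 * (Q : ℝ) ^ 4 * V / (h : ℝ) ^ 2 := by
    refine (sum_le_sum_of_subset_of_nonneg hsub fun _ _ _ => by positivity).trans
      (htra.trans ?_)
    have h3 := mul_le_mul_of_nonneg_left haw (by positivity : (0 : ℝ) ≤ κ ^ 2 * (M : ℝ) ^ 2)
    linarith
  have h3 : ∑ k ∈ Ioc Z X, (∑ r ∈ Icc 1 Q, TP.ar r k - HL.S y k) ^ 2 ≤
      3 * (50 * X * (y : ℝ) ^ (-(1 : ℝ) / 2) + 2 * (Q : ℝ) ^ 4) +
      3 * (50 * X * (Q : ℝ) ^ (-(1 : ℝ) / 2) + 2 * (R : ℝ) ^ 4) + 3 * (X * ρ ^ 2) :=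
    (sum_le_sum_of_subset_of_nonneg hsub fun _ _ _ => sq_nonneg _).trans hsing
  have h4 := mul_le_mul_of_nonneg_left h3 (by positivity : (0 : ℝ) ≤ (M * L) ^ 2)
  have h5 : ((X - Z : ℕ) : ℝ) * (3 * (2 * (Q : ℝ) ^ 2 * L) ^ 2) ≤
      3 * (X * (2 * (Q : ℝ) ^ 2 * L) ^ 2) := by
    have h6 : ((X - Z : ℕ) : ℝ) ≤ X := by exact_mod_cast Nat.sub_le X Z
    have h7 := mul_le_mul_of_nonneg_right h6
      (by positivity : (0 : ℝ) ≤ 3 * (2 * (Q : ℝ) ^ 2 * L) ^ 2)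
    linarith
  rw [← mul_sum]
  linarith

private theorem ms2_large (E T : ℝ) : ∃ X0 : ℕ, ∀ X : ℕ, X0 ≤ X →
    T ≤ Real.log X ∧ (Real.log X) ^ E ≤ (X : ℝ) ^ ((1 : ℝ) / 10) := by
  have h1 : ∀ᶠ X : ℕ in Filter.atTop, T ≤ Real.log X :=
    (Real.tendsto_log_atTop.comp tendsto_natCast_atTop_atTop).eventually_ge_atTop T
  have h2 : ∀ᶠ X : ℕ in Filter.atTop, 0 ≤ Real.log X :=
    (Real.tendsto_log_atTop.comp tendsto_natCast_atTop_atTop).eventually_ge_atTop 0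
  have h3 := ((isLittleO_log_rpow_rpow_atTop E (by norm_num : (0 : ℝ) < 1 / 10)).comp_tendsto
    (tendsto_natCast_atTop_atTop (R := ℝ))).bound (c := 1) one_pos
  obtain ⟨X0, h⟩ := Filter.eventually_atTop.1 (h1.and (h2.and h3))
  refine ⟨X0, fun X hX => ?_⟩
  obtain ⟨a, b, c⟩ := h X hX
  refine ⟨a, ?_⟩
  simp only [Function.comp, one_mul, Real.norm_eq_abs] at c
  rw [abs_of_nonneg (Real.rpow_nonneg b _), abs_of_nonneg (by positivity)] at c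
  exact c

private theorem ms2_fin (l W U F X M q yy qq R κ V h ρ lg : ℝ) (hl : 1 ≤ l) (hX : 0 ≤ X)
    (h1 : κ ^ 2 * l ^ 4 ≤ W) (h2 : (1 + lg) ^ 2 ≤ l ^ 2) (h3 : q ^ 4 ≤ X)
    (h4 : q ^ 4 * (V / h ^ 2) ≤ X * W) (h5 : q ^ 4 * l ^ 2 ≤ M ^ 2 * W) (h6 : yy ≤ U)
    (h7 : q ^ 4 ≤ X * U) (h8 : qq ≤ U) (h9 : R ^ 4 ≤ X * U) (h10 : ρ ^ 2 ≤ U)
    (h11 : l ^ 2 * U ≤ W) (h12 : 2000 * W ≤ F) (hW : 0 ≤ W) :
    3 * (κ ^ 2 * M ^ 2 * (16 * X + 2 * l ^ 2 * (4 * X * (1 + lg) ^ 2 + 4 * q ^ 4)) +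
        4 * M ^ 2 * q ^ 4 * V / h ^ 2) + 3 * (X * (2 * q ^ 2 * l) ^ 2) +
      3 * ((M * l) ^ 2 * (3 * (50 * X * yy + 2 * q ^ 4) +
        3 * (50 * X * qq + 2 * R ^ 4) + 3 * (X * ρ ^ 2))) ≤ X * M ^ 2 * F := by
  have hM2 : 0 ≤ M ^ 2 := sq_nonneg M
  have hl2 : 1 ≤ l ^ 2 := one_le_pow₀ hl
  have hl4 : l ^ 4 = l ^ 2 * l ^ 2 := by ring
  have hXM : 0 ≤ X * M ^ 2 := mul_nonneg hX hM2
  have t1 : 16 * X + 2 * l ^ 2 * (4 * X * (1 + lg) ^ 2 + 4 * q ^ 4) ≤ 32 * (X * l ^ 4) := by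
    have a1 : 4 * X * (1 + lg) ^ 2 + 4 * q ^ 4 ≤ 4 * X * l ^ 2 + 4 * X := by
      have := mul_le_mul_of_nonneg_left h2 (by positivity : (0 : ℝ) ≤ 4 * X)
      linarith
    have a2 := mul_le_mul_of_nonneg_left a1 (by positivity : (0 : ℝ) ≤ 2 * l ^ 2)
    have a3 : X ≤ X * l ^ 2 := by nlinarith
    have a4 : X * l ^ 2 ≤ X * l ^ 4 := by
      rw [hl4]
      nlinarith [mul_nonneg hX (sq_nonneg l)]
    have a5 : 2 * l ^ 2 * (4 * X * l ^ 2 + 4 * X) = 8 * (X * l ^ 4) + 8 * (X * l ^ 2) := by ring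
    linarith
  have t2 : κ ^ 2 * M ^ 2 * (16 * X + 2 * l ^ 2 * (4 * X * (1 + lg) ^ 2 + 4 * q ^ 4)) ≤
      32 * (X * M ^ 2 * W) := by
    have a1 := mul_le_mul_of_nonneg_left t1 (by positivity : (0 : ℝ) ≤ κ ^ 2 * M ^ 2)
    have a2 := mul_le_mul_of_nonneg_left h1 hXM
    have a3 : κ ^ 2 * M ^ 2 * (32 * (X * l ^ 4)) = 32 * (X * M ^ 2 * (κ ^ 2 * l ^ 4)) := by ring
    linarith
  have t3 : 4 * M ^ 2 * q ^ 4 * V / h ^ 2 ≤ 4 * (X * M ^ 2 * W) := by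
    have a1 := mul_le_mul_of_nonneg_left h4 hM2
    have a2 : 4 * M ^ 2 * q ^ 4 * V / h ^ 2 = 4 * (M ^ 2 * (q ^ 4 * (V / h ^ 2))) := by ring
    rw [a2]
    linarith
  have t4 : X * (2 * q ^ 2 * l) ^ 2 ≤ 4 * (X * M ^ 2 * W) := by
    have a1 := mul_le_mul_of_nonneg_left h5 hX
    have a2 : X * (2 * q ^ 2 * l) ^ 2 = 4 * (X * (q ^ 4 * l ^ 2)) := by ring
    rw [a2]
    linarith
  have t5 : 3 * (50 * X * yy + 2 * q ^ 4) + 3 * (50 * X * qq + 2 * R ^ 4) + 3 * (X * ρ ^ 2) ≤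
      400 * (X * U) := by
    have a1 := mul_le_mul_of_nonneg_left h6 hX
    have a2 := mul_le_mul_of_nonneg_left h8 hX
    have a3 := mul_le_mul_of_nonneg_left h10 hX
    have a4 : 0 ≤ X * U := mul_nonneg hX (le_trans (sq_nonneg ρ) h10)
    linarith
  have t6 : (M * l) ^ 2 * (3 * (50 * X * yy + 2 * q ^ 4) +
      3 * (50 * X * qq + 2 * R ^ 4) + 3 * (X * ρ ^ 2)) ≤ 400 * (X * M ^ 2 * W) := by
    have a1 := mul_le_mul_of_nonneg_left t5 (sq_nonneg (M * l))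
    have a2 := mul_le_mul_of_nonneg_left h11 hXM
    have a3 : (M * l) ^ 2 * (400 * (X * U)) = 400 * (X * M ^ 2 * (l ^ 2 * U)) := by ring
    linarith
  have t7 := mul_le_mul_of_nonneg_left h12 hXM
  have t8 : 0 ≤ X * M ^ 2 * W := mul_nonneg hXM hW
  linarith

theorem ms2 (A B' : ℝ) (hA : 0 < A) (hB' : 0 < B') : ∃ A0 : ℕ, 1 ≤ A0 ∧ ∀ a : ℕ, A0 ≤ a →
    ∃ C0 : ℝ, 0 < C0 ∧ ∀ C : ℝ, C0 ≤ C → ∃ X0 : ℕ, ∀ X : ℕ, X0 ≤ X → ∀ M Z : ℕ,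
    (Real.log X) ^ C ≤ M → M ^ 3 ≤ X → (X : ℝ) * (Real.log X) ^ (-B') ≤ Z → Z ≤ X →
    ∑ k ∈ Ioc Z X,
      (∑ m ∈ Icc 1 M, ue ⌊(Real.log X) ^ a⌋₊ ⌊(Real.log X) ^ (2 * a)⌋₊ (m ^ 3 + k) -
        HL.S ⌊(Real.log X) ^ C⌋₊ k *
          ∑ m ∈ Icc 1 M, lam ⌊(Real.log X) ^ a⌋₊ ⌊(Real.log X) ^ (2 * a)⌋₊ (m ^ 3 + k)) ^ 2 ≤
      X * (M : ℝ) ^ 2 * (Real.log X) ^ (-A) := by
  obtain ⟨K, hK⟩ : ∃ K : ℝ, K = A + 4 := ⟨_, rfl⟩
  have hK0 : 0 < K := by linarith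
  obtain ⟨A2, hA2, hfa0⟩ := fa2 (25 * K) (100 * K + A + 4) B' (by positivity) (by positivity) hB'
  refine ⟨⌈A2⌉₊ + 1, by omega, fun a ha => ?_⟩
  have haA2 : A2 + 1 ≤ (a : ℝ) := by
    have h1 : ((⌈A2⌉₊ + 1 : ℕ) : ℝ) ≤ a := by exact_mod_cast ha
    push_cast at h1
    linarith [Nat.le_ceil A2]
  obtain ⟨C1, A1, hC1, hA1, X1, hX1, hfa⟩ := hfa0 (2 * (a : ℝ)) (by linarith)
  refine ⟨C1 + A1 + 200 * K + 2 * A + 20, by positivity, fun C hC => ?_⟩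
  have hC0 : 0 < C := by linarith
  obtain ⟨X2, hran⟩ := ran C (A + 10) hC0 (by linarith)
  obtain ⟨X3, hlarge⟩ := ms2_large (100 * K + 2 * a + B' + A + 20) (2 ^ 65)
  refine ⟨max X1 (max X2 X3), fun X hX M Z hM hM3 hZ hZX => ?_⟩
  have hXX1 : X1 ≤ X := (le_max_left _ _).trans hX
  have hXX2 : X2 ≤ X := ((le_max_left _ _).trans (le_max_right _ _)).trans hX
  have hXX3 : X3 ≤ X := ((le_max_right _ _).trans (le_max_right _ _)).trans hX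
  obtain ⟨hl0, hY0⟩ := hlarge X hXX3
  have hfa' := hfa X hXX1 Z hZ
  have hran' := hran X hXX2
  obtain ⟨l, hl⟩ : ∃ l, l = Real.log X := ⟨_, rfl⟩
  obtain ⟨Y, hY⟩ : ∃ Y, Y = (X : ℝ) ^ ((1 : ℝ) / 10) := ⟨_, rfl⟩
  rw [← hl] at hM hZ hl0 hY0 hfa' hran' ⊢
  rw [← hY] at hY0 hran'
  have hl1 : 1 ≤ l := le_trans (by norm_num) hl0
  have hlp : 0 < l := by linarith
  have hX10 : (10 : ℝ) ≤ X := by exact_mod_cast hX1.trans hXX1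
  have hXp : (0 : ℝ) < X := by linarith
  have hYX : Y ^ 10 = X := by
    rw [hY, ← Real.rpow_natCast, ← Real.rpow_mul hXp.le]
    norm_num
  have hYlog : Real.log Y = l / 10 := by
    rw [hY, Real.log_rpow hXp, hl]
    ring
  have hE : ∀ s : ℝ, s ≤ 100 * K + 2 * a + B' + A + 20 → l ^ s ≤ Y := fun s hs =>
    (Real.rpow_le_rpow_of_exponent_le hl1 hs).trans hY0
  have haR : (0 : ℝ) ≤ a := Nat.cast_nonneg a
  have hlY : l ≤ Y := by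
    have := hE 1 (by linarith)
    rwa [Real.rpow_one] at this
  have hY1 : 1 ≤ Y := hl1.trans hlY
  have hYX1 : Y ≤ X := by
    rw [← hYX]
    exact le_self_pow₀ hY1 (by norm_num)
  have hM1 : (1 : ℝ) ≤ M := (Real.one_le_rpow hl1 hC0.le).trans hM
  -- the modulus bound
  obtain ⟨Q, hQ⟩ : ∃ Q : ℕ, Q = ⌈(2 : ℝ) ^ 64 * l ^ (24 * K)⌉₊ := ⟨_, rfl⟩
  have hQlow : (2 : ℝ) ^ 64 * l ^ (24 * K) ≤ Q := by
    rw [hQ]
    exact Nat.le_ceil _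
  have h24 : 1 ≤ l ^ (24 * K) := Real.one_le_rpow hl1 (by positivity)
  have hQup : (Q : ℝ) ≤ l ^ (25 * K) := by
    have h1 : (Q : ℝ) < (2 : ℝ) ^ 64 * l ^ (24 * K) + 1 := by
      rw [hQ]
      exact Nat.ceil_lt_add_one (by positivity)
    have h2 : l ^ (25 * K) = l ^ K * l ^ (24 * K) := by
      rw [← Real.rpow_add hlp]
      congr 1
      ring
    have h3 : (2 : ℝ) ^ 65 ≤ l ^ K := by
      refine hl0.trans ?_
      nth_rewrite 1 [← Real.rpow_one l]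
      exact Real.rpow_le_rpow_of_exponent_le hl1 (by linarith)
    have h4 := mul_le_mul_of_nonneg_right h3 (by linarith : (0 : ℝ) ≤ l ^ (24 * K))
    rw [h2]
    have h5 : (2 : ℝ) ^ 65 * l ^ (24 * K) = (2 : ℝ) ^ 64 * l ^ (24 * K) +
        (2 : ℝ) ^ 64 * l ^ (24 * K) := by ring
    have h6 : (1 : ℝ) ≤ (2 : ℝ) ^ 64 * l ^ (24 * K) :=
      one_le_mul_of_one_le_of_one_le (by norm_num) h24
    linarith
  have hQ1 : (1 : ℝ) ≤ Q :=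
    (one_le_mul_of_one_le_of_one_le (by norm_num : (1 : ℝ) ≤ 2 ^ 64) h24).trans hQlow
  have hQ4 : (Q : ℝ) ^ 4 ≤ l ^ (100 * K) := by
    refine (pow_le_pow_left₀ (by linarith) hQup 4).trans (le_of_eq ?_)
    rw [← Real.rpow_mul_natCast hlp.le]
    congr 1
    push_cast
    ring
  have hQY : (Q : ℝ) ≤ Y := hQup.trans (hE _ (by linarith))
  have hQ0 : 0 < (Q : ℝ) := by linarith
  -- the sizes of the primes
  obtain ⟨P, hP⟩ : ∃ P : ℕ, P = ⌊l ^ a⌋₊ := ⟨_, rfl⟩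
  obtain ⟨P2, hP2⟩ : ∃ P2 : ℕ, P2 = ⌊l ^ (2 * a)⌋₊ := ⟨_, rfl⟩
  have hPlow : l ^ A2 ≤ P := by
    have h1 : l ^ a < (P : ℝ) + 1 := by
      rw [hP]
      exact Nat.lt_floor_add_one _
    have h2 : l ^ (A2 + 1) ≤ l ^ (a : ℝ) := Real.rpow_le_rpow_of_exponent_le hl1 haA2
    rw [Real.rpow_natCast, Real.rpow_add hlp, Real.rpow_one] at h2
    have h3 : 1 ≤ l ^ A2 := Real.one_le_rpow hl1 hA2.le
    nlinarith
  have hPP2 : P ≤ P2 := by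
    rw [hP, hP2]
    exact Nat.floor_le_floor (pow_le_pow_right₀ hl1 (by omega))
  have hP2up : (P2 : ℝ) ≤ l ^ (2 * (a : ℝ)) := by
    rw [hP2]
    refine (Nat.floor_le (by positivity)).trans (le_of_eq ?_)
    rw [← Real.rpow_natCast]
    push_cast
    rfl
  have hP1 : (1 : ℝ) ≤ P := (Real.one_le_rpow hl1 hA2.le).trans hPlow
  have hP21 : (1 : ℝ) ≤ P2 := hP1.trans (by exact_mod_cast hPP2)
  have hkap : TP.kap P P2 ≤ l := by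
    refine (kap_le P P2).trans ?_
    have h1 : Real.log P2 ≤ Real.log Y :=
      Real.log_le_log (by linarith) (hP2up.trans (hE _ (by linarith)))
    rw [hYlog] at h1
    have h2 : (10 : ℝ) ≤ l := le_trans (by norm_num) hl0
    linarith
  have hZP : 3 * P2 ≤ Z := by
    have h1 : (3 : ℝ) * P2 ≤ Z := by
      refine le_trans ?_ hZ
      have h2 : l ^ (2 * (a : ℝ) + 1 + B') ≤ X := (hE _ (by linarith)).trans hYX1
      have h3 := mul_le_mul_of_nonneg_right h2 (by positivity : (0 : ℝ) ≤ l ^ (-B'))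
      rw [← Real.rpow_add hlp] at h3
      have h4 : 2 * (a : ℝ) + 1 + B' + -B' = 2 * (a : ℝ) + 1 := by ring
      rw [h4, Real.rpow_add hlp, Real.rpow_one] at h3
      have h5 : (3 : ℝ) ≤ l := le_trans (by norm_num) hl0
      have h6 : 0 ≤ l ^ (2 * (a : ℝ)) := by positivity
      nlinarith
    exact_mod_cast h1
  -- the length of the windows
  obtain ⟨h, hh⟩ : ∃ h : ℕ, h = ⌊(M : ℝ) ^ 3 / (6 * Q * l ^ A1)⌋₊ := ⟨_, rfl⟩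
  have hlA1 : 1 ≤ l ^ A1 := Real.one_le_rpow hl1 hA1.le
  have hden : 0 < 6 * (Q : ℝ) * l ^ A1 := by positivity
  have hhup : (h : ℝ) * (6 * Q * l ^ A1) ≤ (M : ℝ) ^ 3 := by
    rw [← le_div_iff₀ hden, hh]
    exact Nat.floor_le (by positivity)
  have hhC : l ^ C1 ≤ h := by
    have h1 : (M : ℝ) ^ 3 / (6 * Q * l ^ A1) < (h : ℝ) + 1 := by
      rw [hh]
      exact Nat.lt_floor_add_one _
    have h2 : l ^ (C1 + 1) ≤ (M : ℝ) ^ 3 / (6 * Q * l ^ A1) := by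
      rw [le_div_iff₀ hden]
      have h3 : (l ^ C) ^ 3 ≤ (M : ℝ) ^ 3 := pow_le_pow_left₀ (by positivity) hM 3
      rw [← Real.rpow_mul_natCast hlp.le] at h3
      refine le_trans ?_ h3
      have h4 : 6 * (Q : ℝ) ≤ l * l ^ (25 * K) :=
        mul_le_mul (le_trans (by norm_num) hl0) hQup hQ0.le hlp.le
      have h5 : l ^ (C1 + 1) * (6 * Q * l ^ A1) ≤
          l ^ (C1 + 1) * (l * l ^ (25 * K) * l ^ A1) := by gcongr
      refine h5.trans ?_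
      nth_rewrite 2 [← Real.rpow_one l]
      rw [← Real.rpow_add hlp, ← Real.rpow_add hlp, ← Real.rpow_add hlp]
      refine Real.rpow_le_rpow_of_exponent_le hl1 ?_
      push_cast
      linarith
    rw [Real.rpow_add hlp, Real.rpow_one] at h2
    have h3 : 1 ≤ l ^ C1 := Real.one_le_rpow hl1 hC1.le
    have h4 : (2 : ℝ) ≤ l := le_trans (by norm_num) hl0
    nlinarith
  have hh1 : (1 : ℝ) ≤ h := (Real.one_le_rpow hl1 hC1.le).trans hhC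
  have hh1' : 1 ≤ h := by exact_mod_cast hh1
  have hh0 : (0 : ℝ) < h := by linarith
  have hhQ : 6 * h * Q ≤ M ^ 3 := by
    have h1 : (6 : ℝ) * h * Q ≤ (M : ℝ) ^ 3 := by
      refine le_trans ?_ hhup
      have h2 : (h : ℝ) * (6 * Q * 1) ≤ (h : ℝ) * (6 * Q * l ^ A1) := by gcongr
      linarith
    exact_mod_cast h1
  have hM3R : (M : ℝ) ^ 3 ≤ X := by exact_mod_cast hM3
  have hhA : (h : ℝ) ≤ X * l ^ (-A1) := by
    rw [Real.rpow_neg hlp.le, ← div_eq_mul_inv, le_div_iff₀ (by positivity)]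
    refine le_trans ?_ (hhup.trans hM3R)
    have h2 : (1 : ℝ) * l ^ A1 ≤ 6 * Q * l ^ A1 := by
      refine mul_le_mul_of_nonneg_right ?_ (by positivity)
      linarith
    rw [one_mul] at h2
    exact mul_le_mul_of_nonneg_left h2 hh0.le
  obtain ⟨V, hV⟩ : ∃ V : ℝ, V = X * (h : ℝ) ^ 2 * l ^ (-(100 * K + A + 4)) := ⟨_, rfl⟩
  have hVV : ∀ q c : ℕ, 1 ≤ q → q ≤ Q → c < q →
      ∑ x ∈ Icc 1 (2 * X + h), ‖∑ n ∈ (Ioc (x - h) x).filter (fun n => n ≤ 2 * X ∧ n % q = c),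
        aw P P2 Q X Z n‖ ^ 2 ≤ V := by
    intro q c hq hqQ hcq
    rw [hV]
    exact hfa' Q q c hQup hq hqQ hcq P P2 h hPlow hPP2 hP2up hhC hhA
  -- the local factors
  obtain ⟨R, hR⟩ : ∃ R : ℕ, R = ⌈Y⌉₊ := ⟨_, rfl⟩
  have hRlow : Y ≤ R := by
    rw [hR]
    exact Nat.le_ceil _
  have hRup : (R : ℝ) ≤ 2 * Y := by
    have h1 : (R : ℝ) < Y + 1 := by
      rw [hR]
      exact Nat.ceil_lt_add_one (by linarith)
    linarith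
  have hQR : Q ≤ R := by exact_mod_cast hQY.trans hRlow
  obtain ⟨y, hy⟩ : ∃ y : ℕ, y = ⌊l ^ C⌋₊ := ⟨_, rfl⟩
  have hyup : (y : ℝ) ≤ l ^ C := by
    rw [hy]
    exact Nat.floor_le (by positivity)
  have hylow : l ^ (C - 1) ≤ y := by
    have h1 : l ^ C < (y : ℝ) + 1 := by
      rw [hy]
      exact Nat.lt_floor_add_one _
    have h2 : l ^ C = l ^ (C - 1) * l := by
      nth_rewrite 3 [← Real.rpow_one l]
      rw [← Real.rpow_add hlp]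
      congr 1
      ring
    have h3 : 1 ≤ l ^ (C - 1) := Real.one_le_rpow hl1 (by linarith)
    have h4 : (2 : ℝ) ≤ l := le_trans (by norm_num) hl0
    nlinarith
  have hy2 : 2 ≤ y := by
    have h1 : l ^ (1 : ℝ) ≤ l ^ (C - 1) := Real.rpow_le_rpow_of_exponent_le hl1 (by linarith)
    rw [Real.rpow_one] at h1
    have h2 : ((2 : ℕ) : ℝ) ≤ y := by
      push_cast
      exact (le_trans (by norm_num) hl0).trans (h1.trans hylow)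
    exact_mod_cast h2
  have hρ : ∀ k, |HL.S y k - ∑ r ∈ (TP.Wy y).divisors.filter (fun r => r ≤ R), TP.ar r k| ≤
      l ^ (-(A + 10)) := fun k => hran' y k R hy2 hyup hRlow
  -- the parameter kappa
  obtain ⟨κ, hκ⟩ : ∃ κ : ℝ, κ = l ^ (-K) := ⟨_, rfl⟩
  have hκn : ∀ n : ℕ, κ ^ n = l ^ (-K * n) := by
    intro n
    rw [hκ, ← Real.rpow_mul_natCast hlp.le]
  have hκ0 : 0 < κ := by
    rw [hκ]
    positivity
  have hκ1 : κ ≤ 1 := by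
    rw [hκ]
    exact Real.rpow_le_one_of_one_le_of_nonpos hl1 (by linarith)
  have hκM : 2 ^ 24 ≤ κ ^ 9 * (M : ℝ) := by
    have h1 : κ ^ 9 * l ^ C ≤ κ ^ 9 * (M : ℝ) := mul_le_mul_of_nonneg_left hM (by positivity)
    refine le_trans ?_ h1
    rw [hκn 9, ← Real.rpow_add hlp]
    have h2 : l ^ (1 : ℝ) ≤ l ^ (-K * ((9 : ℕ) : ℝ) + C) := by
      refine Real.rpow_le_rpow_of_exponent_le hl1 ?_
      push_cast
      linarith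
    rw [Real.rpow_one] at h2
    exact (le_trans (by norm_num) hl0).trans h2
  have hκQ : 2 ^ 64 / κ ^ 24 ≤ (Q : ℝ) := by
    refine le_trans (le_of_eq ?_) hQlow
    rw [hκn 24, div_eq_mul_inv, ← Real.rpow_neg hlp.le]
    congr 2
    push_cast
    ring
  rw [← hP, ← hP2, ← hy]
  refine (ms2_core P P2 Q X Z M h y R κ V l (l ^ (-(A + 10))) hM3 hZP hκ0 hκ1 hκM hκQ hh1' hhQ
    hVV hkap (by omega) hQR hρ).trans ?_
  have hXY : ∀ s : ℝ, s ≤ 100 * K + A + 10 → l ^ s ≤ X := fun s hs =>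
    (hE s (by linarith)).trans hYX1
  have hU : l ^ (A + 10) * l ^ (-(A + 10)) = 1 := by
    rw [← Real.rpow_add hlp, add_neg_cancel, Real.rpow_zero]
  have hU0 : 0 < l ^ (-(A + 10)) := by positivity
  refine ms2_fin l (l ^ (-(A + 1))) (l ^ (-(A + 10))) (l ^ (-A)) X M Q _ _ R κ V h _ _ hl1
    hXp.le ?_ ?_ ?_ ?_ ?_ ?_ ?_ ?_ ?_ ?_ ?_ ?_ (by positivity)
  · have h1 : l ^ 4 = l ^ (4 : ℝ) := by
      rw [← Real.rpow_natCast]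
      norm_num
    rw [hκn 2, h1, ← Real.rpow_add hlp]
    refine Real.rpow_le_rpow_of_exponent_le hl1 ?_
    push_cast
    linarith
  · have h1 : Real.log Q ≤ Real.log Y := Real.log_le_log hQ0 hQY
    have h2 : 0 ≤ Real.log Q := Real.log_nonneg hQ1
    rw [hYlog] at h1
    have h3 : (10 : ℝ) ≤ l := le_trans (by norm_num) hl0
    refine pow_le_pow_left₀ (by linarith) (by linarith) 2
  · exact hQ4.trans (hXY _ (by linarith))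
  · have h1 : V / (h : ℝ) ^ 2 = X * l ^ (-(100 * K + A + 4)) := by
      rw [hV]
      field_simp
    rw [h1]
    have h2 : (Q : ℝ) ^ 4 * (X * l ^ (-(100 * K + A + 4))) ≤
        l ^ (100 * K) * (X * l ^ (-(100 * K + A + 4))) :=
      mul_le_mul_of_nonneg_right hQ4 (by positivity)
    refine h2.trans ?_
    have h3 : l ^ (100 * K) * l ^ (-(100 * K + A + 4)) ≤ l ^ (-(A + 1)) := by
      rw [← Real.rpow_add hlp]
      exact Real.rpow_le_rpow_of_exponent_le hl1 (by linarith)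
    have h4 := mul_le_mul_of_nonneg_left h3 hXp.le
    linarith
  · have h1 : l ^ 2 = l ^ (2 : ℝ) := by
      rw [← Real.rpow_natCast]
      norm_num
    have h2 : (Q : ℝ) ^ 4 * l ^ 2 ≤ l ^ C * l ^ (-(A + 1)) := by
      refine (mul_le_mul_of_nonneg_right hQ4 (by positivity)).trans ?_
      rw [h1, ← Real.rpow_add hlp, ← Real.rpow_add hlp]
      exact Real.rpow_le_rpow_of_exponent_le hl1 (by linarith)
    refine h2.trans (mul_le_mul_of_nonneg_right ?_ (by positivity))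
    nlinarith
  · have h1 : (y : ℝ) ^ (-(1 : ℝ) / 2) ≤ (l ^ (C - 1)) ^ (-(1 : ℝ) / 2) :=
      Real.rpow_le_rpow_of_nonpos (by positivity) hylow (by norm_num)
    refine h1.trans ?_
    rw [← Real.rpow_mul hlp.le]
    exact Real.rpow_le_rpow_of_exponent_le hl1 (by linarith)
  · have h1 := hXY (100 * K + A + 10) le_rfl
    have h2 := mul_le_mul_of_nonneg_right h1 hU0.le
    rw [← Real.rpow_add hlp] at h2
    have h3 : 100 * K + A + 10 + -(A + 10) = 100 * K := by ring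
    rw [h3] at h2
    exact hQ4.trans h2
  · have h0 : l ^ (24 * K) ≤ Q := by
      refine le_trans ?_ hQlow
      have h00 : (1 : ℝ) ≤ 2 ^ 64 := by norm_num
      nlinarith
    have h1 : (Q : ℝ) ^ (-(1 : ℝ) / 2) ≤ (l ^ (24 * K)) ^ (-(1 : ℝ) / 2) :=
      Real.rpow_le_rpow_of_nonpos (by positivity) h0 (by norm_num)
    refine h1.trans ?_
    rw [← Real.rpow_mul hlp.le]
    exact Real.rpow_le_rpow_of_exponent_le hl1 (by linarith)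
  · have h1 : (R : ℝ) ^ 4 ≤ (2 * Y) ^ 4 := pow_le_pow_left₀ (Nat.cast_nonneg R) hRup 4
    refine h1.trans ?_
    have h2 : l ^ (A + 10) ≤ Y := hE _ (by linarith)
    have h3 : 1 ≤ Y * l ^ (-(A + 10)) := by
      rw [← hU]
      exact mul_le_mul_of_nonneg_right h2 hU0.le
    have h4 : (16 : ℝ) ≤ Y := (le_trans (by norm_num) hl0).trans hlY
    have h5 : Y ≤ Y ^ 5 := le_self_pow₀ hY1 (by norm_num)
    have h6 : (X : ℝ) * l ^ (-(A + 10)) = Y ^ 4 * Y ^ 5 * (Y * l ^ (-(A + 10))) := by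
      rw [← hYX]
      ring
    rw [h6]
    have h7 : (2 * Y) ^ 4 = Y ^ 4 * 16 * 1 := by ring
    rw [h7]
    have h8 : (16 : ℝ) ≤ Y ^ 5 := h4.trans h5
    gcongr
  · rw [← Real.rpow_mul_natCast hlp.le]
    refine Real.rpow_le_rpow_of_exponent_le hl1 ?_
    push_cast
    linarith
  · have h1 : l ^ 2 = l ^ (2 : ℝ) := by
      rw [← Real.rpow_natCast]
      norm_num
    rw [h1, ← Real.rpow_add hlp]
    exact Real.rpow_le_rpow_of_exponent_le hl1 (by linarith)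
  · have h1 : l ^ (-A) = l * l ^ (-(A + 1)) := by
      nth_rewrite 2 [← Real.rpow_one l]
      rw [← Real.rpow_add hlp]
      congr 1
      ring
    rw [h1]
    exact mul_le_mul_of_nonneg_right (le_trans (by norm_num) hl0) (by positivity)

end Pool.Agent.H43.TQ
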