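import Pool.Agent.H43.TQ.Defs

/-!
# [H43 TQ PIE] Narrow pieces of `(P,P2]`

PROOF. `D_0 = P`, `D_{j+1} = min P2 ⌊D_j (1 + L^(-K))⌋₊`. `D_j >= P >= L^(K+1)` (if `P <= P2`), so `D_j L^(-K) >= L >= 2` and
`⌊D_j (1+L^(-K))⌋ >= D_j (1 + L^(-K)) - 1 >= D_j (1 + L^(-K)/2)`: the sequence is monotone and, as long as it is `< P2`,
`D_j >= P (1 + L^(-K)/2)^j >= exp(j L^(-K)/4)` (`1 + x >= e^(x/2)` for `0 <= x <= 1`, `P >= 1`). With
`J = ⌈4 A3 L^K log L⌉₊ <= L^(K+1)` (for `L` large), `exp(J L^(-K)/4) >= L^A3 >= P2`, so `D_J = P2`.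
`pie_sum`: sums over `(P,P2]` of any function are the sums of the sums over `(D_j, D_{j+1}]` (`D` monotone).
-/

namespace Pool.Agent.H43.TQ

open Finset

/-- the sequence of division points -/
noncomputable def pie_D (P P2 : ℕ) (r : ℝ) : ℕ → ℕ
  | 0 => P
  | j + 1 => min P2 ⌊(pie_D P P2 r j : ℝ) * (1 + r)⌋₊

theorem pie_large (K A3 : ℝ) (hK : 0 < K) (hA3 : 0 < A3) : ∃ L0 : ℝ, ∀ L : ℝ, L0 ≤ L →
    ∃ J : ℕ, (J : ℝ) ≤ L ^ (K + 1) ∧ L ^ A3 ≤ Real.exp (J * (L ^ (-K) / 4)) := by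
  have h1 : Filter.Tendsto (fun L : ℝ => Real.log L / L) Filter.atTop (nhds 0) := by
    have := Real.isLittleO_log_id_atTop.tendsto_div_nhds_zero
    exact this
  have h2 : ∀ᶠ L : ℝ in Filter.atTop, Real.log L / L < 1 / (8 * A3 + 8) :=
    h1.eventually_lt_const (by positivity)
  obtain ⟨L1, hL1⟩ := Filter.eventually_atTop.1 (h2.and (Filter.eventually_ge_atTop (4 : ℝ)))
  refine ⟨L1, fun L hL => ?_⟩
  obtain ⟨h3, h4⟩ := hL1 L hL
  have hL0 : 0 < L := by linarith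
  have hlog : 0 ≤ Real.log L := Real.log_nonneg (by linarith)
  have hLK : 0 < L ^ K := Real.rpow_pos_of_pos hL0 _
  have hLK1 : 1 ≤ L ^ K := Real.one_le_rpow (by linarith) hK.le
  have hsucc : L ^ (K + 1) = L ^ K * L := by
    rw [Real.rpow_add hL0, Real.rpow_one]
  have hneg : L ^ K * L ^ (-K) = 1 := by
    rw [← Real.rpow_add hL0, add_neg_cancel, Real.rpow_zero]
  refine ⟨⌈4 * A3 * L ^ K * Real.log L⌉₊, ?_, ?_⟩
  · have h5 : (⌈4 * A3 * L ^ K * Real.log L⌉₊ : ℝ) ≤ 4 * A3 * L ^ K * Real.log L + 1 :=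
      (Nat.ceil_lt_add_one (by positivity)).le
    have h6 : (8 * A3 + 8) * Real.log L < L := by
      rw [div_lt_div_iff₀ hL0 (by positivity)] at h3
      linarith
    have h7 : 4 * A3 * Real.log L ≤ L / 2 := by nlinarith
    rw [hsucc]
    have h8 : L ^ K * (4 * A3 * Real.log L) ≤ L ^ K * (L / 2) := mul_le_mul_of_nonneg_left h7 hLK.le
    have h9 : (1 : ℝ) ≤ L ^ K * (L / 2) := by nlinarith
    calc (⌈4 * A3 * L ^ K * Real.log L⌉₊ : ℝ) ≤ 4 * A3 * L ^ K * Real.log L + 1 := h5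
      _ = L ^ K * (4 * A3 * Real.log L) + 1 := by ring
      _ ≤ L ^ K * (L / 2) + L ^ K * (L / 2) := by linarith
      _ = L ^ K * L := by ring
  · have h5 : 4 * A3 * L ^ K * Real.log L ≤ (⌈4 * A3 * L ^ K * Real.log L⌉₊ : ℝ) := Nat.le_ceil _
    have h6 : A3 * Real.log L ≤ (⌈4 * A3 * L ^ K * Real.log L⌉₊ : ℝ) * (L ^ (-K) / 4) := by
      have h7 : 0 ≤ L ^ (-K) / 4 := by positivity
      calc A3 * Real.log L = (4 * A3 * L ^ K * Real.log L) * (L ^ (-K) / 4) := by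
            linear_combination (-(A3 * Real.log L)) * hneg
        _ ≤ _ := mul_le_mul_of_nonneg_right h5 h7
    rw [Real.rpow_def_of_pos hL0]
    apply Real.exp_le_exp.2
    rw [mul_comm]
    exact h6

theorem pie (K A3 : ℝ) (hK : 0 < K) (hA3 : 0 < A3) : ∃ L0 : ℝ, 2 ≤ L0 ∧ ∀ L : ℝ, L0 ≤ L →
    ∀ P P2 : ℕ, L ^ (K + 1) ≤ P → P ≤ P2 → (P2 : ℝ) ≤ L ^ A3 →
    ∃ (J : ℕ) (D : ℕ → ℕ), Monotone D ∧ D 0 = P ∧ D J = P2 ∧ (J : ℝ) ≤ L ^ (K + 1) ∧
      ∀ j, (D (j + 1) : ℝ) ≤ D j * (1 + L ^ (-K)) := by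
  obtain ⟨L0, hL0⟩ := pie_large K A3 hK hA3
  refine ⟨max L0 2, le_max_right _ _, fun L hL P P2 hP hPP hP2 => ?_⟩
  have hLL := (le_max_left L0 2).trans hL
  have hL2 : 2 ≤ L := (le_max_right L0 2).trans hL
  obtain ⟨J, hJ1, hJ2⟩ := hL0 L hLL
  have hL0' : 0 < L := by linarith
  have hK0 : 0 < L ^ (-K) := Real.rpow_pos_of_pos hL0' _
  have hK1 : L ^ (-K) ≤ 1 := Real.rpow_le_one_of_one_le_of_nonpos (by linarith) (by linarith)
  have hKK : L ^ (K + 1) * L ^ (-K) = L := by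
    rw [← Real.rpow_add hL0']
    norm_num
  set D : ℕ → ℕ := pie_D P P2 (L ^ (-K)) with hD
  have hstep : ∀ j, P ≤ D j ∧ D j ≤ P2 ∧ D j ≤ D (j + 1) ∧
      (D (j + 1) = P2 ∨ (D j : ℝ) * (1 + L ^ (-K) / 2) ≤ D (j + 1)) := by
    intro j
    have hgen : ∀ d : ℕ, P ≤ d → d ≤ P2 → (d ≤ min P2 ⌊(d : ℝ) * (1 + L ^ (-K))⌋₊ ∧
        (min P2 ⌊(d : ℝ) * (1 + L ^ (-K))⌋₊ = P2 ∨
          (d : ℝ) * (1 + L ^ (-K) / 2) ≤ ((min P2 ⌊(d : ℝ) * (1 + L ^ (-K))⌋₊ : ℕ) : ℝ))) := by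
      intro d hd1 hd2
      have hdR : L ^ (K + 1) ≤ (d : ℝ) := hP.trans (by exact_mod_cast hd1)
      have h1 : 2 ≤ (d : ℝ) * L ^ (-K) := by
        calc (2 : ℝ) ≤ L := hL2
          _ = L ^ (K + 1) * L ^ (-K) := hKK.symm
          _ ≤ (d : ℝ) * L ^ (-K) := mul_le_mul_of_nonneg_right hdR hK0.le
      have h2 : (d : ℝ) * (1 + L ^ (-K)) - 1 < (⌊(d : ℝ) * (1 + L ^ (-K))⌋₊ : ℝ) := by
        have := Nat.lt_floor_add_one ((d : ℝ) * (1 + L ^ (-K)))
        linarith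
      have h3 : (d : ℝ) * (1 + L ^ (-K) / 2) ≤ (⌊(d : ℝ) * (1 + L ^ (-K))⌋₊ : ℝ) := by
        nlinarith
      have h4 : d ≤ ⌊(d : ℝ) * (1 + L ^ (-K))⌋₊ := by
        apply Nat.le_floor
        nlinarith [Nat.cast_nonneg (α := ℝ) d]
      refine ⟨le_min hd2 h4, ?_⟩
      rcases le_total P2 ⌊(d : ℝ) * (1 + L ^ (-K))⌋₊ with h5 | h5
      · left
        exact min_eq_left h5
      · right
        rw [min_eq_right h5]
        exact h3
    induction j with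
    | zero =>
      have h := hgen P le_rfl hPP
      exact ⟨le_rfl, hPP, h.1, h.2⟩
    | succ j ih =>
      have h1 : P ≤ D (j + 1) := ih.1.trans ih.2.2.1
      have h2 : D (j + 1) ≤ P2 := min_le_left _ _
      have h := hgen (D (j + 1)) h1 h2
      exact ⟨h1, h2, h.1, h.2⟩
  have hmono : Monotone D := monotone_nat_of_le_succ fun j => (hstep j).2.2.1
  have hgrow : ∀ j, D j = P2 ∨ (P : ℝ) * (1 + L ^ (-K) / 2) ^ j ≤ D j := by
    intro j
    induction j with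
    | zero =>
      right
      rw [pow_zero, mul_one]
      exact le_rfl
    | succ j ih =>
      rcases ih with h | h
      · left
        exact le_antisymm (hstep (j + 1)).2.1 (h ▸ (hstep j).2.2.1)
      · rcases (hstep j).2.2.2 with h2 | h2
        · exact Or.inl h2
        · right
          calc (P : ℝ) * (1 + L ^ (-K) / 2) ^ (j + 1)
              = (P : ℝ) * (1 + L ^ (-K) / 2) ^ j * (1 + L ^ (-K) / 2) := by ring
            _ ≤ (D j : ℝ) * (1 + L ^ (-K) / 2) := mul_le_mul_of_nonneg_right h (by linarith)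
            _ ≤ D (j + 1) := h2
  refine ⟨J, D, hmono, rfl, ?_, hJ1, ?_⟩
  · rcases hgrow J with h | h
    · exact h
    · apply le_antisymm (hstep J).2.1
      have hP1 : (1 : ℝ) ≤ P := by
        refine le_trans ?_ hP
        exact Real.one_le_rpow (by linarith) (by linarith)
      have h5 : L ^ A3 ≤ (1 + L ^ (-K) / 2) ^ J := by
        have h6 : Real.exp (L ^ (-K) / 4) ≤ 1 + L ^ (-K) / 2 := by
          have h7 : |L ^ (-K) / 4| ≤ 1 := by
            rw [abs_of_pos (by positivity)]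
            linarith
          have h8 := Real.exp_bound_div_one_sub_of_interval (x := L ^ (-K) / 4) (by positivity)
            (by linarith)
          refine h8.trans ?_
          rw [div_le_iff₀ (by linarith)]
          nlinarith
        calc L ^ A3 ≤ Real.exp (J * (L ^ (-K) / 4)) := hJ2
          _ = Real.exp (L ^ (-K) / 4) ^ J := by rw [← Real.exp_nat_mul]
          _ ≤ (1 + L ^ (-K) / 2) ^ J := pow_le_pow_left₀ (Real.exp_pos _).le h6 J
      have h9 : (P2 : ℝ) ≤ D J := by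
        calc (P2 : ℝ) ≤ L ^ A3 := hP2
          _ ≤ (1 + L ^ (-K) / 2) ^ J := h5
          _ ≤ (P : ℝ) * (1 + L ^ (-K) / 2) ^ J := by
              have h10 : 0 ≤ (1 + L ^ (-K) / 2) ^ J := by positivity
              nlinarith
          _ ≤ D J := h
      exact_mod_cast h9
  · intro j
    have h1 : (D (j + 1) : ℝ) ≤ (⌊(D j : ℝ) * (1 + L ^ (-K))⌋₊ : ℝ) := by
      exact_mod_cast min_le_right _ _
    refine h1.trans (Nat.floor_le ?_)
    positivity

theorem pie_sum (f : ℕ → ℝ) (D : ℕ → ℕ) (hD : Monotone D) (J : ℕ) :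
    ∑ n ∈ Ioc (D 0) (D J), f n = ∑ j ∈ range J, ∑ n ∈ Ioc (D j) (D (j + 1)), f n := by
  induction J with
  | zero => simp
  | succ J ih =>
    rw [sum_range_succ, ← ih]
    have h1 : Ioc (D 0) (D (J + 1)) = Ioc (D 0) (D J) ∪ Ioc (D J) (D (J + 1)) := by
      rw [Ioc_union_Ioc_eq_Ioc (hD (Nat.zero_le _)) (hD (Nat.le_succ _))]
    rw [h1, sum_union]
    rw [disjoint_left]
    intro n hn hn'
    rw [mem_Ioc] at hn hn'
    omega

end Pool.Agent.H43.TQ
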